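import Pool.Agent.Y698.SG.Fj
import Pool.Agent.Y698.SG.Ug
import Pool.Agent.Y698.SG.Uj
import Pool.Agent.Y698.SG.Dwc
import Pool.Agent.Y698.SG.Ebb
import Pool.Agent.Q283.GM.Fld
import Pool.Agent.Q283.GM.Eul

/-!
# The exact law of the 2-part of the conjecture of Birch and Swinnerton-Dyer over abelian fields

`K_1, …, K_s` are number fields, `K_i` is the subfield of degree `2 ^ n_i` of `ℚ(ζ_{r_i})` for a prime
number `r_i ≡ 1 mod 4` which is inert in `ℚ(√-7)`, and `E_D` is the quadratic twist by `D` of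
`X_0(49) : y² + x y = x³ - x² - 2 x - 1`. The `D` are the squarefree positive integers whose prime
factors `p` are `1` modulo `4`, different from the `r_i`, and such that in all the fields `K_i` the
Frobenius element of `p` has order one (if `p` splits in `ℚ(√-7)`) or at most two (if `p` is inert
in `ℚ(√-7)`). For other products `D` of primes `≡ 1 mod 4` different from the `r_i` the following
property fails for some `i` (starting results): `E_D(K_i)` is finite and `Ш(E_D/K_i)[2] = 0`.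

* For exactly the proportion `κ = (1 - 1/2) (1 - 1/8) (1 - 1/32) ⋯ = 0.4194…` of the `D` of the class
  the groups `E_D(K_i)` are finite and `Ш(E_D/K_i)[2] = 0`, for all the fields at once; and then the
  2-part of the conjecture of Birch and Swinnerton-Dyer holds for `E_D` over all the fields `K_i`: the
  function `L(E_D/K_i, s)` is entire and not zero at `1`, the 2-primary part of `Ш` is zero, and
  `√|Disc K_i| #E(K_i)_tors² L(E_D/K_i, 1) / (Ω ∏ c_v)` is a unit at all the primes above two.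
* For the twists by `m_1 D, …, m_M D`, with different numbers `m_1, …, m_M` of the class, these
  properties are asymptotically independent: they hold together for the proportion `κ ^ M`.
* The corank `b` of the matrix which decides this has the law `α_b = κ / ((2 - 1) (4 - 1) ⋯ (2 ^ b - 1))`,
  also jointly for `m_1 D, …, m_M D`, and `Ш(E_D/K_i)[2]` has at least `2 ^ b` elements, for all `i`, if
  `E_D(K_i)` is finite.

The criterion for a single `D` and the formula modulo the primes above two are starting results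
(`FormulaModTwoAllTwists`, `Pool/Agent/Y698`). New here (helper283, `Pool/Agent/Q283/GM`): the law for
the classes of primes given by arbitrary residue classes.
-/

set_option autoImplicit false

open NumberField NumberField.InfinitePlace IsDedekindDomain WeierstrassCurve MeasureTheory

namespace Pool.Agent.Results.MP_f50388_nt.ExactLawAbelianFields

open Pool.Agent.TH841.NF.D (Sha)
open Pool.Agent.TH841.SH.D (Pt)

/-- For `D ≡ 1 mod 4` the quadratic twist by `D` of the elliptic curve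
`X_0(49) : y² + x y = x³ - x² - 2 x - 1`:
the curve `y² + x y = x³ - (3 D + 1) / 4 x² - 2 D² x - D³`. -/
def twist (D : ℕ) : WeierstrassCurve ℤ := ⟨1, -((3 * D + 1) / 4), 0, -2 * D ^ 2, -D ^ 3⟩

/-- The curve given by the equation of `W` over the ring `R`. -/
abbrev base (W : WeierstrassCurve ℤ) (R : Type) [CommRing R] : WeierstrassCurve R :=
  W.map (Int.castRingHom R)

section

variable {K : Type} [Field K] [NumberField K]

/-- The equation is minimal at the finite place `v` of `K`: no change of variables over `K` that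
keeps the coefficients integral at `v` decreases the order of the discriminant. -/
def MinimalAt (W : WeierstrassCurve K) (v : HeightOneSpectrum (𝓞 K)) : Prop :=
  ∀ C : VariableChange K, v.valuation K (C • W).a₁ ≤ 1 → v.valuation K (C • W).a₂ ≤ 1 →
    v.valuation K (C • W).a₃ ≤ 1 → v.valuation K (C • W).a₄ ≤ 1 → v.valuation K (C • W).a₆ ≤ 1 →
    v.valuation K (C • W).Δ ≤ v.valuation K W.Δ

/-- `W⁰(K_v)`, the group of the points of `W` over the completion `K_v` with nonsingular reduction: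
the point at infinity and the points `(x, y)` where `x` is not integral, or one of the two
derivatives of `y² + a₁ x y + a₃ y - x³ - a₂ x² - a₄ x - a₆` is a unit at `(x, y)`.
Here `Pt W K_v` is the group of the points of `W` over `K_v`. -/
noncomputable def nonsing (W : WeierstrassCurve K) (v : HeightOneSpectrum (𝓞 K)) :
    AddSubgroup (Pt W (v.adicCompletion K)) :=
  AddSubgroup.closure {P | ∀ x y h, P = Affine.Point.some x y h →
    1 < Valued.v x ∨
    Valued.v ((W.baseChange (v.adicCompletion K)).a₁ * y -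
      (3 * x ^ 2 + 2 * (W.baseChange (v.adicCompletion K)).a₂ * x +
        (W.baseChange (v.adicCompletion K)).a₄)) = 1 ∨
    Valued.v (2 * y + (W.baseChange (v.adicCompletion K)).a₁ * x +
      (W.baseChange (v.adicCompletion K)).a₃) = 1}

/-- The Tamagawa number `c_v = [W(K_v) : W⁰(K_v)]` of a minimal equation. -/
noncomputable def c (W : WeierstrassCurve K) (v : HeightOneSpectrum (𝓞 K)) : ℕ :=
  (nonsing W v).index

/-- The product of the Tamagawa numbers. -/
noncomputable def Tam (W : WeierstrassCurve K) : ℕ := ∏ᶠ v : HeightOneSpectrum (𝓞 K), c W v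

/-- The 2-primary part of the Tate-Shafarevich group over `K`. -/
def Sha2 (W : WeierstrassCurve K) : Set (Sha W) := {x | ∃ n : ℕ, 2 ^ n • x = 0}

end

/-- `4 x³ + b₂ x² + 2 b₄ x + b₆ = (2 y + a₁ x + a₃)²`. -/
def cubic (W : WeierstrassCurve ℤ) {R : Type} [CommRing R] (x : R) : R :=
  4 * x ^ 3 + W.b₂ * x ^ 2 + 2 * W.b₄ * x + W.b₆

/-- `∫_{W(ℝ)} |ω|` with `ω = dx / (2 y + a₁ x + a₃)`, as an integral over `x`: two real points lie
over each `x` with `cubic x > 0`. -/
noncomputable def realPeriod (W : WeierstrassCurve ℤ) : ℝ :=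
  2 * ∫ x in {x : ℝ | 0 < cubic W x}, 1 / √(cubic W x)

/-- `2 ∫_{W(ℂ)} |ω ∧ ω̄|`, where `|ω ∧ ω̄| = du dv` in a local parameter `z = u + i v` with
`dz = ω`, as an integral over `x`: two points lie over a general `x`, and `|ω ∧ ω̄|` is the area
element of the plane of `x` divided by `|cubic x|`. -/
noncomputable def complexPeriod (W : WeierstrassCurve ℤ) : ℝ := 2 * (2 * ∫ x : ℂ, 1 / ‖cubic W x‖)

/-- `Ω_{W/K}`. -/
noncomputable def Omega (K : Type) [Field K] [NumberField K] (W : WeierstrassCurve ℤ) : ℝ :=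
  realPeriod W ^ nrRealPlaces K * complexPeriod W ^ nrComplexPlaces K

open Classical in
/-- The order of the torsion subgroup of `W(K)`. -/
noncomputable def torsOrder (K : Type) [Field K] [NumberField K] (W : WeierstrassCurve ℤ) : ℕ :=
  Nat.card (AddCommGroup.torsion (base W K).toAffine.Point)

/-- The order of the Tate-Shafarevich group predicted by the formula, for a curve with an equation that
is minimal at all finite places and the value `l` of its L-function at `s = 1`:
`√|Disc K| #W(K)_tors² l / (Ω_{W/K} ∏ c_v)`. -/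
noncomputable def anOrder (K : Type) [Field K] [NumberField K] (W : WeierstrassCurve ℤ) (l : ℂ) : ℂ :=
  l * (√|(discr K : ℝ)| : ℝ) * (torsOrder K W : ℂ) ^ 2 / ((Omega K W : ℝ) * (Tam (base W K) : ℂ))

open Classical in
/-- `1` if `m` is not a square modulo `p`, and `0` if it is -/
noncomputable def nonsq (p m : ℕ) : ZMod 2 := if IsSquare (m : ZMod p) then 0 else 1

open Classical in
/-- `1` if `-7` is not a fourth power modulo `p`, and `0` if it is -/
noncomputable def nonfourth (p : ℕ) : ZMod 2 := if ∃ y : ZMod p, y ^ 4 = -7 then 0 else 1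

/-- The matrix over the field with two elements, with rows and columns indexed by `P`: the entry at
`(i, j)` is `nonsq i j` for `i ≠ j`, and the entry at `(i, i)` is the sum of `nonfourth i` and of the
`nonsq i l` for all the `l ≠ i` in `Q` and `P`. -/
noncomputable def mat (Q P : Finset ℕ) : Matrix P P (ZMod 2) := Matrix.of fun i j =>
  if i = j then nonfourth i + ∑ q ∈ Q, nonsq i q + ∑ p ∈ P.erase i, nonsq i p else nonsq i j

/-- The group `E_D(K)` is finite. -/
def FinitePoints (K : Type) [Field K] (D : ℕ) : Prop := Finite (base (twist D) K).toAffine.Point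

/-- The number of the elements of `Ш(E_D/K)` killed by two. -/
noncomputable def shaTwo (K : Type) [Field K] [NumberField K] (D : ℕ) : ℕ∞ :=
  {x : Sha (base (twist D) K) | x + x = 0}.encard

/-- `E_D(K)` is finite and `Ш(E_D/K)` has no element of order two. -/
def Good (K : Type) [Field K] [NumberField K] (D : ℕ) : Prop :=
  Finite (base (twist D) K).toAffine.Point ∧ ∀ x : Sha (base (twist D) K), x + x = 0 → x = 0

/-- The equation of `E_D` is minimal at all finite places of `K`, the order of the torsion subgroup of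
`E_D(K)` is twice an odd number, the 2-primary part of `Ш(E_D/K)` is zero, the product of the Tamagawa
numbers is `2 ^ t`, `L(E_D/K, s)` is entire and not zero at `s = 1`, and the analytic order
`√|Disc K| #E_D(K)_tors² L(E_D/K, 1) / (Ω ∏ c_v)` and its inverse are algebraic numbers which become
integral after multiplication by odd integers. -/
def TwoPartFormula (K : Type) [Field K] [NumberField K] (D t : ℕ) : Prop :=
  (∀ v : HeightOneSpectrum (𝓞 K), MinimalAt (base (twist D) K) v) ∧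
  (∃ t : ℕ, Odd t ∧ torsOrder K (twist D) = 2 * t) ∧
  Sha2 (base (twist D) K) = {0} ∧
  Tam (base (twist D) K) = 2 ^ t ∧
  ∃ Λ : ℂ → ℂ, Differentiable ℂ Λ ∧
    (∀ s : ℂ, 2 < s.re → Λ s = (base (twist D) K).LSeries s) ∧ Λ 1 ≠ 0 ∧
    (∃ m : ℤ, Odd m ∧ _root_.IsIntegral ℤ ((m : ℂ) * anOrder K (twist D) (Λ 1))) ∧
    ∃ m : ℤ, Odd m ∧ _root_.IsIntegral ℤ ((m : ℂ) * (anOrder K (twist D) (Λ 1))⁻¹)

/-- The data of the fields: prime numbers `r_i ≡ 1 mod 4` which are inert in `ℚ(√-7)`, exponents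
`n_i ≥ 1` and fields `K_i` of degree `2 ^ n_i` inside `ℚ(ζ_{r_i})`. -/
structure Fields where
  /-- the number of the fields -/
  s : ℕ
  s_pos : 0 < s
  /-- the conductors -/
  r : Fin s → ℕ
  /-- the exponents of the degrees -/
  n : Fin s → ℕ
  prime : ∀ i, (r i).Prime
  mod_four : ∀ i, r i % 4 = 1
  inert : ∀ i, ¬ IsSquare (-7 : ZMod (r i))
  n_pos : ∀ i, 1 ≤ n i
  /-- the fields -/
  K : ∀ i, IntermediateField ℚ (CyclotomicField (r i) ℚ)
  degree : ∀ i, Module.finrank ℚ (K i) = 2 ^ n i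

/-- The prime numbers of the class: `p ≡ 1 mod 4`, different from the `r_i`, with Frobenius element of
order one in all the `K_i` if `p` splits in `ℚ(√-7)`, and of order at most two otherwise. -/
def Allowed (F : Fields) (p : ℕ) : Prop :=
  p.Prime ∧ p % 4 = 1 ∧ (∀ i, p ≠ F.r i) ∧
    ((IsSquare (-7 : ZMod p) ∧ ∀ i, ∃ y : ZMod (F.r i), y ^ 2 ^ F.n i = (p : ZMod (F.r i))) ∨
     (¬ IsSquare (-7 : ZMod p) ∧ ∀ i, ∃ y : ZMod (F.r i), y ^ 2 ^ F.n i = (p : ZMod (F.r i)) ^ 2))

/-- The class of the `D`. -/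
def Class (F : Fields) (D : ℕ) : Prop := Squarefree D ∧ ∀ p : ℕ, p.Prime → p ∣ D → Allowed F p

open Classical in
/-- The prime factors of `D` which split in `ℚ(√-7)`. -/
noncomputable def splitPart (D : ℕ) : Finset ℕ := D.primeFactors.filter fun p => IsSquare (-7 : ZMod p)

open Classical in
/-- The prime factors of `D` which do not split in `ℚ(√-7)`. -/
noncomputable def inertPart (D : ℕ) : Finset ℕ := D.primeFactors.filter fun p => ¬ IsSquare (-7 : ZMod p)

/-- The corank of the matrix of `D`: the number of the columns minus the rank. -/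
noncomputable def corank (D : ℕ) : ℕ :=
  (splitPart D).card - (mat (inertPart D) (splitPart D)).rank

/-- The squarefree part of `m D`, for squarefree `m` and `D`. -/
def tw (m D : ℕ) : ℕ := m * D / Nat.gcd m D ^ 2

open Classical in
/-- The number of the `D ≤ X` of the class with the property `T`. -/
noncomputable def count (F : Fields) (T : ℕ → Prop) (X : ℕ) : ℕ :=
  ((Finset.Icc 1 X).filter fun D => Class F D ∧ T D).card

/-- The residue classes of the allowed primes: `a ≡ 1 mod 4`, and either `a` is a nonzero square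
modulo `7` and a `2 ^ n_i`-th power modulo all the `r_i`, or it is not a square modulo `7` and `a²` is a
`2 ^ n_i`-th power modulo all the `r_i`. -/
def AllowedResidue (F : Fields) (a : ℕ) : Prop :=
  a % 4 = 1 ∧
    (((a % 7 = 1 ∨ a % 7 = 2 ∨ a % 7 = 4) ∧
        ∀ i, ∃ y : ZMod (F.r i), y ^ 2 ^ F.n i = (a : ZMod (F.r i))) ∨
      ((a % 7 = 3 ∨ a % 7 = 5 ∨ a % 7 = 6) ∧
        ∀ i, ∃ y : ZMod (F.r i), y ^ 2 ^ F.n i = (a : ZMod (F.r i)) ^ 2))

/-- The modulus `28 r_1 ⋯ r_s`. -/
def modulus (F : Fields) : ℕ := 28 * ∏ i, F.r i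

open Classical in
/-- The density of the allowed primes among all the primes, as a proportion of residue classes
modulo `28 r_1 ⋯ r_s`. -/
noncomputable def density (F : Fields) : ℝ :=
  (((Finset.range (modulus F)).filter fun a => a.Coprime (modulus F) ∧ AllowedResidue F a).card : ℝ) /
    ((modulus F).totient : ℝ)

/-- The number `κ = (1 - 1/2) (1 - 1/8) (1 - 1/32) ⋯`. -/
noncomputable def κ : ℝ := ∏' i : ℕ, (1 - (1 / 2 : ℝ) ^ (2 * i + 1))

/-- The limit law `κ / ((2 - 1) (4 - 1) ⋯ (2 ^ b - 1))`. -/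
noncomputable def α (b : ℕ) : ℝ := κ / ∏ i ∈ Finset.range b, ((2 : ℝ) ^ (i + 1) - 1)

/-- The criterion: a squarefree product `D` of primes `≡ 1 mod 4` different from the `r_i` satisfies
`Good (K_i) D` for all `i` if and only if it is in the class and its matrix is not singular. -/
def Criterion (F : Fields) : Prop :=
  ∀ D : ℕ, Squarefree D → (∀ p : ℕ, p.Prime → p ∣ D → p % 4 = 1 ∧ ∀ i, p ≠ F.r i) →
    ((∀ i, Good (F.K i) D) ↔ Class F D ∧ corank D = 0)

/-- The 2-part of the conjecture for the good members of the class. -/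
def TwoPart (F : Fields) : Prop :=
  ∀ D : ℕ, Class F D → ∀ i, (Good (F.K i) D ↔ corank D = 0) ∧ (Good (F.K i) D →
    TwoPartFormula (F.K i) D (1 + ((inertPart D).card + 2 * (splitPart D).card) * 2 ^ F.n i))

/-- The elements of order two of `Ш(E_D/K_i)` if `E_D(K_i)` is finite. -/
def OrderTwo (F : Fields) : Prop :=
  ∀ D : ℕ, Class F D → ∀ i, FinitePoints (F.K i) D → 2 ^ corank D ≤ shaTwo (F.K i) D

/-- The twists by `m_1 D, …, m_M D` are all in the class and good over all the fields for exactly the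
proportion `κ ^ M` of the `D` of the class. -/
def ExactProportion (F : Fields) : Prop :=
  ∀ (M : ℕ) (m : Fin M → ℕ), (∀ k, Class F (m k)) → Function.Injective m →
    Filter.Tendsto (fun X : ℕ =>
      (count F (fun D => ∀ k, Class F (tw (m k) D) ∧ ∀ i, Good (F.K i) (tw (m k) D)) X : ℝ) /
      (count F (fun _ => True) X : ℝ)) Filter.atTop (nhds (κ ^ M))

/-- The joint law of the coranks for the twists by `m_1 D, …, m_M D`. -/
def CorankLaw (F : Fields) : Prop :=
  ∀ (M : ℕ) (m : Fin M → ℕ), (∀ k, Class F (m k)) → Function.Injective m → ∀ b : Fin M → ℕ,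
    Filter.Tendsto (fun X : ℕ => (count F (fun D => ∀ k, corank (tw (m k) D) = b k) X : ℝ) /
      (count F (fun _ => True) X : ℝ)) Filter.atTop (nhds (∏ k, α (b k)))

/-- The size of the class. -/
def Size (F : Fields) : Prop :=
  0 < density F ∧ ∃ (c : ℝ) (X₀ : ℕ), 0 < c ∧ ∀ X : ℕ, X₀ ≤ X →
    c * X * Real.log X ^ (density F - 1) ≤ (count F (fun _ => True) X : ℝ)

section proof

open Pool.Agent.Y698

lemma base_eq {D j : ℕ} (hj : D = 1 + 4 * j) (K : Type) [Field K] : base (twist D) K = AX K j :=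
  twZ_map hj K

lemma cubic_eq {D j : ℕ} (hj : D = 1 + 4 * j) {R : Type} [CommRing R] (x : R) :
    cubic (twist D) x = psD (1 + 4 * j) x := by
  have h1 : (3 * (D : ℤ) + 1) / 4 = 1 + 3 * j := by
    rw [hj]
    push_cast
    omega
  unfold cubic twist WeierstrassCurve.b₂ WeierstrassCurve.b₄ WeierstrassCurve.b₆ psD
  simp only
  rw [h1, hj]
  push_cast
  ring

lemma real_eq {D j : ℕ} (hj : D = 1 + 4 * j) : realPeriod (twist D) =
    ∫ x in {x : ℝ | 0 < psD (1 + 4 * j) x}, 2 / Real.sqrt (psD (1 + 4 * j) x) := by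
  unfold realPeriod
  simp only [cubic_eq hj]
  rw [← integral_const_mul]
  congr 1
  funext x
  ring

lemma cplx_eq {D j : ℕ} (hj : D = 1 + 4 * j) : complexPeriod (twist D) =
    ∫ x : ℂ, 4 / ‖psD (1 + 4 * j) x‖ := by
  unfold complexPeriod
  simp only [cubic_eq hj]
  rw [← mul_assoc, ← integral_const_mul]
  congr 1
  funext x
  ring

section criterion

variable {r n : ℕ} {Q P : Finset ℕ} {D : ℕ}

open Pool.Agent.Y698 Pool.Agent.Y698.SG in
/-- the criterion -/
theorem crit (hr : r.Prime) (h4 : r % 4 = 1) (h7 : ¬ IsSquare (-7 : ZMod r))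
    (hn : 1 ≤ n) (K : IntermediateField ℚ (CyclotomicField r ℚ))
    (hK : Module.finrank ℚ K = 2 ^ n)
    (hQ : ∀ q ∈ Q, q.Prime ∧ q % 4 = 1 ∧ ¬ IsSquare (-7 : ZMod q) ∧ q ≠ r)
    (hP : ∀ p ∈ P, p.Prime ∧ p % 4 = 1 ∧ IsSquare (-7 : ZMod p))
    (hD : D = (∏ q ∈ Q, q) * ∏ p ∈ P, p) :
    (Good K D ↔ (∀ q ∈ Q, ∃ y : ZMod r, y ^ 2 ^ n = (q : ZMod r) ^ 2) ∧
      (∀ p ∈ P, ∃ y : ZMod r, y ^ 2 ^ n = (p : ZMod r)) ∧ (mat Q P).det ≠ 0) ∧
    ((∀ q ∈ Q, ∃ y : ZMod r, y ^ 2 ^ n = (q : ZMod r) ^ 2) ∧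
      (∀ p ∈ P, ∃ y : ZMod r, y ^ 2 ^ n = (p : ZMod r)) ∧ (mat Q P).det ≠ 0 →
      TwoPartFormula K D (1 + (Q.card + 2 * P.card) * 2 ^ n)) := by
  have : Fact r.Prime := ⟨hr⟩
  have hM : IsCyclotomicExtension {r} ℚ (CyclotomicField r ℚ) := Pool.Agent.Y698.cyc_inst r
  have hN : Normal ℚ K := (Pool.Agent.Y698.isGalK r K (M := CyclotomicField r ℚ)).to_normal
  have hir : Pool.Agent.Y698.Inq r := ⟨hr, h4, h7⟩
  have hQ' : ∀ q ∈ Q, Pool.Agent.Y698.Inq q ∧ q ≠ r := fun q hq =>
    ⟨⟨(hQ q hq).1, (hQ q hq).2.1, (hQ q hq).2.2.1⟩, (hQ q hq).2.2.2⟩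
  have hP' : ∀ p ∈ P, Pool.Agent.Y698.SG.Spl p := fun p hp => ⟨(hP p hp).1, (hP p hp).2.1, (hP p hp).2.2⟩
  have hPr : ∀ p ∈ P, p ≠ r := by
    rintro p hp rfl
    exact h7 (hP p hp).2.2
  have hgp : ∀ q ∈ Q ∪ P, Pool.Agent.Y698.SG.Gp q ∧ q ≠ r := by
    intro q hq
    rcases Finset.mem_union.1 hq with h | h
    · exact ⟨Pool.Agent.Y698.SG.Gp.of_inq (hQ' q h).1, (hQ' q h).2⟩
    · exact ⟨Pool.Agent.Y698.SG.Gp.of_spl (hP' q h), hPr q h⟩
  have hdisj : Disjoint Q P := Pool.Agent.Y698.SG.disj_QP (fun q hq => (hQ' q hq).1) hP'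
  have hDu : D = ∏ q ∈ Q ∪ P, q := by rw [hD, Finset.prod_union hdisj]
  have hm4 := Pool.Agent.Y698.prod_mod_four (S := Q ∪ P) fun q hq => (hgp q hq).1.m4
  obtain ⟨j, hj⟩ : ∃ j, ∏ q ∈ Q ∪ P, q = 1 + 4 * j := ⟨(∏ q ∈ Q ∪ P, q) / 4, by omega⟩
  have hDj : D = 1 + 4 * j := by rw [hDu, hj]
  have han : ∀ l : ℂ, anOrder K (twist D) l = Pool.Agent.Y698.SG.quoT K j l := by
    intro l
    unfold anOrder torsOrder Omega
    rw [base_eq hDj, real_eq hDj, cplx_eq hDj]
    unfold Pool.Agent.Y698.SG.quoT Pool.Agent.Y698.SG.tnum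
    have hT : Tam (Pool.Agent.Y698.AX K j) = ∏ᶠ v, Pool.Agent.Y698.tam (Pool.Agent.Y698.AX K j) v := rfl
    rw [hT]
    generalize (∏ᶠ v, Pool.Agent.Y698.tam (Pool.Agent.Y698.AX K j) v : ℕ) = t
    push_cast
    rfl
  have hst : torsOrder K (twist D) = Pool.Agent.Y698.SG.tnum (Pool.Agent.Y698.AX K j) := by
    unfold torsOrder Pool.Agent.Y698.SG.tnum
    rw [base_eq hDj]
  have heq := Pool.Agent.Y698.SG.equiv_all (CyclotomicField r ℚ) K hK hn hir hQ' hP' hj
  obtain ⟨Λ, h1, h2, h3⟩ := Pool.Agent.Y698.SG.level_all (CyclotomicField r ℚ) K hK hn hir hQ' hP' hj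
  unfold Good TwoPartFormula
  simp only [han, hst]
  rw [base_eq hDj]
  refine ⟨heq.symm, fun hC => ?_⟩
  obtain ⟨k, rfl⟩ : ∃ k, n = k + 1 := ⟨n - 1, by omega⟩
  have hdt : Pool.Agent.Y698.SG.Dt r (k + 1) Q P :=
    ⟨hn, hir, fun q hq => ⟨(hQ' q hq).1, (hQ' q hq).2, hC.1 q hq⟩,
      fun p hp => ⟨hP' p hp, hC.2.1 p hp⟩, hC.2.2⟩
  refine ⟨fun v => Pool.Agent.Y698.SG.minimal_E (CyclotomicField r ℚ) K h7 hgp hj v,
    Pool.Agent.Y698.SG.tnum_AX (CyclotomicField r ℚ) K h7 j, ?_,
    Pool.Agent.Y698.SG.tam_prodE (CyclotomicField r ℚ) K hK hdt hj, Λ, h1, h2, ?_,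
    Pool.Agent.Y698.int_of_val fun Γ _ v hv => (h3 Γ v hv).1, ?_⟩
  · apply Set.eq_singleton_iff_unique_mem.2
    refine ⟨⟨0, smul_zero _⟩, ?_⟩
    rintro x ⟨l, hl⟩
    exact Pool.Agent.Y698.SG.sha_two_powE (CyclotomicField r ℚ) K hK hdt hj x l hl
  · intro h0
    refine Pool.Agent.Y698.SG.exists_val2 fun Γ _ v hv => ?_
    have h5 := ((h3 Γ v hv).2).2 hC
    rw [h0] at h5
    unfold Pool.Agent.Y698.SG.quoT at h5
    rw [zero_mul, zero_mul, zero_div, map_zero] at h5
    exact zero_ne_one h5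
  · exact Pool.Agent.Y698.int_of_val fun Γ _ v hv => by
      rw [map_inv₀, ((h3 Γ v hv).2).2 hC, inv_one]

end criterion

end proof

section law

open Q283.GW Q283.GS Q283.GF
open Q283.XF (nf)
open Q283.GM (rk cR)
open scoped Classical

/-- the data in the form used in the proofs -/
def toFL (F : Fields) : FL where
  s := F.s
  r := F.r
  n := F.n
  pr := F.prime
  r4 := F.mod_four
  ns := F.inert

lemma class_iff (F : Fields) (D : ℕ) : Class F D ↔ Squarefree D ∧ (toFL F).CL D.primeFactors := by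
  unfold Class FL.CL
  constructor
  · rintro ⟨h1, h2⟩
    exact ⟨h1, fun p hp => h2 p (Nat.prime_of_mem_primeFactors hp) (Nat.dvd_of_mem_primeFactors hp)⟩
  · rintro ⟨h1, h2⟩
    exact ⟨h1, fun p hp hd => h2 p (Nat.mem_primeFactors.2 ⟨hp, hd, h1.ne_zero⟩)⟩

lemma A_sq {p : ℕ} (h1 : p.Prime) (h2 : p % 4 = 1) : ρ49.Φ.A p ↔ IsSquare (-7 : ZMod p) := by
  constructor
  · intro h
    exact (spl_A h).sq
  · intro h
    by_contra h3
    exact (inq_B h1 h2 h3).ns h

lemma split_eq {D : ℕ} (h : CF D.primeFactors) : splitPart D = PA D.primeFactors := by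
  unfold splitPart PA
  refine Finset.filter_congr fun p hp => ?_
  rw [A_sq (h p hp).1 (h p hp).2]

lemma inert_eq {D : ℕ} (h : CF D.primeFactors) : inertPart D = QA D.primeFactors := by
  unfold inertPart QA
  refine Finset.filter_congr fun p hp => ?_
  rw [A_sq (h p hp).1 (h p hp).2]

lemma rank_null (Q P : Finset ℕ) : P.card - (Y698.SG.mat Q P).rank =
    Module.finrank (ZMod 2) (LinearMap.ker (Y698.SG.mat Q P).mulVecLin) := by
  have h1 := LinearMap.finrank_range_add_finrank_ker (Y698.SG.mat Q P).mulVecLin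
  rw [Module.finrank_fintype_fun_eq_card, Fintype.card_coe] at h1
  have h2 : (Y698.SG.mat Q P).rank =
    Module.finrank (ZMod 2) (LinearMap.range (Y698.SG.mat Q P).mulVecLin) := rfl
  omega

lemma corank_eq {D : ℕ} (h : CF D.primeFactors) : corank D = rk ρ49.Φ nf D.primeFactors := by
  have key : ∀ Q P Q' P' : Finset ℕ, Q = Q' → P = P' →
      P.card - (mat Q P).rank = P'.card - (Y698.SG.mat Q' P').rank := by
    rintro Q P _ _ rfl rfl
    rfl
  rw [Q283.GW.rk_eq, ← rank_null]
  exact key _ _ _ _ (inert_eq h) (split_eq h)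

lemma det_eq {D : ℕ} (h : CF D.primeFactors) :
    (mat (inertPart D) (splitPart D)).det ≠ 0 ↔ corank D = 0 := by
  rw [corank_eq h, split_eq h, inert_eq h]
  exact det_rk _

lemma prod_parts {D : ℕ} (hD : Squarefree D) :
    D = (∏ q ∈ inertPart D, q) * ∏ p ∈ splitPart D, p := by
  conv_lhs => rw [← Nat.prod_primeFactors_of_squarefree hD]
  unfold inertPart splitPart
  rw [mul_comm]
  exact (Finset.prod_filter_mul_prod_filter_not _ _ _).symm

lemma tw_eq {m D : ℕ} (hm : Squarefree m) (hD : Squarefree D) :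
    tw m D = ∏ p ∈ symmDiff D.primeFactors m.primeFactors, p := by
  set S := D.primeFactors with hS
  set T := m.primeFactors with hT
  have e1 : m = (∏ p ∈ S ∩ T, p) * ∏ p ∈ T \ S, p := by
    conv_lhs => rw [← Nat.prod_primeFactors_of_squarefree hm]
    rw [← hT, ← Finset.prod_union]
    · congr 1
      ext a
      simp only [Finset.mem_union, Finset.mem_inter, Finset.mem_sdiff]
      tauto
    · rw [Finset.disjoint_left]
      intro a ha hb
      exact (Finset.mem_sdiff.1 hb).2 (Finset.mem_inter.1 ha).1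
  have e2 : D = (∏ p ∈ S ∩ T, p) * ∏ p ∈ S \ T, p := by
    conv_lhs => rw [← Nat.prod_primeFactors_of_squarefree hD]
    rw [← hS, ← Finset.prod_union]
    · congr 1
      ext a
      simp only [Finset.mem_union, Finset.mem_inter, Finset.mem_sdiff]
      tauto
    · rw [Finset.disjoint_left]
      intro a ha hb
      exact (Finset.mem_sdiff.1 hb).2 (Finset.mem_inter.1 ha).2
  have hg : Nat.gcd m D = ∏ p ∈ S ∩ T, p := by
    conv_lhs => rw [e1, e2]
    rw [Nat.gcd_mul_left]
    have hc : Nat.Coprime (∏ p ∈ T \ S, p) (∏ p ∈ S \ T, p) := by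
      refine Nat.Coprime.prod_left fun p hp => Nat.Coprime.prod_right fun q hq => ?_
      refine (Nat.coprime_primes (Nat.prime_of_mem_primeFactors (Finset.mem_sdiff.1 hp).1)
        (Nat.prime_of_mem_primeFactors (Finset.mem_sdiff.1 hq).1)).2 ?_
      rintro rfl
      exact (Finset.mem_sdiff.1 hp).2 (Finset.mem_sdiff.1 hq).1
    rw [hc.gcd_eq_one, mul_one]
  have hpos : 0 < ∏ p ∈ S ∩ T, p := Finset.prod_pos fun p hp =>
    (Nat.prime_of_mem_primeFactors (Finset.mem_inter.1 hp).1).pos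
  unfold tw
  rw [hg]
  have e3 : m * D = (∏ p ∈ symmDiff S T, p) * (∏ p ∈ S ∩ T, p) ^ 2 := by
    conv_lhs => rw [e1, e2]
    rw [Finset.symmDiff_def, Finset.prod_union]
    · ring
    · rw [Finset.disjoint_left]
      intro a ha hb
      exact (Finset.mem_sdiff.1 ha).2 (Finset.mem_sdiff.1 hb).1
  rw [e3]
  exact Nat.mul_div_cancel _ (pow_pos hpos 2)

lemma sqf_prod {J : Finset ℕ} (hJ : ∀ q ∈ J, q.Prime) : Squarefree (∏ q ∈ J, q) := by
  induction J using Finset.induction_on with
  | empty => simp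
  | insert p J hp ih =>
    rw [Finset.prod_insert hp]
    have h1 := ih fun q hq => hJ q (Finset.mem_insert_of_mem hq)
    have hpp := hJ p (Finset.mem_insert_self p J)
    refine (Nat.squarefree_mul ?_).2 ⟨hpp.squarefree, h1⟩
    rw [hpp.coprime_iff_not_dvd]
    exact Pool.Agent.Y698.SG.not_dvd_pr hpp (fun q hq => hJ q (Finset.mem_insert_of_mem hq)) hp

lemma tw_pf {m D : ℕ} (hm : Squarefree m) (hD : Squarefree D) :
    Squarefree (tw m D) ∧ (tw m D).primeFactors = symmDiff D.primeFactors m.primeFactors := by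
  have hp : ∀ p ∈ symmDiff D.primeFactors m.primeFactors, p.Prime := by
    intro p hp
    rcases Finset.mem_symmDiff.1 hp with h | h
    · exact Nat.prime_of_mem_primeFactors h.1
    · exact Nat.prime_of_mem_primeFactors h.1
  rw [tw_eq hm hD]
  exact ⟨sqf_prod hp, Nat.primeFactors_prod hp⟩

lemma tw_class {F : Fields} {m D : ℕ} (hm : Class F m) (hD : Class F D) : Class F (tw m D) := by
  rw [class_iff] at hm hD ⊢
  obtain ⟨h1, h2⟩ := tw_pf hm.1 hD.1
  refine ⟨h1, ?_⟩
  rw [h2]
  exact hD.2.symmDiff hm.2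

/-- the criterion for the members of the class -/
lemma good_iff {F : Fields} {D : ℕ} (hD : Class F D) (i : Fin F.s) :
    (Good (F.K i) D ↔ corank D = 0) ∧ (corank D = 0 →
      TwoPartFormula (F.K i) D (1 + ((inertPart D).card + 2 * (splitPart D).card) * 2 ^ F.n i)) := by
  have hC := (class_iff F D).1 hD
  have hcf : CF D.primeFactors := hC.2.cf
  have hQ : ∀ q ∈ inertPart D, Allowed F q ∧ ¬ IsSquare (-7 : ZMod q) := by
    intro q hq
    obtain ⟨h1, h2⟩ := Finset.mem_filter.1 hq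
    exact ⟨hC.2 q h1, h2⟩
  have hP : ∀ q ∈ splitPart D, Allowed F q ∧ IsSquare (-7 : ZMod q) := by
    intro q hq
    obtain ⟨h1, h2⟩ := Finset.mem_filter.1 hq
    exact ⟨hC.2 q h1, h2⟩
  obtain ⟨c1, c2⟩ := crit (F.prime i) (F.mod_four i) (F.inert i) (F.n_pos i) (F.K i) (F.degree i)
    (Q := inertPart D) (P := splitPart D) (D := D)
    (fun q hq => ⟨(hQ q hq).1.1, (hQ q hq).1.2.1, (hQ q hq).2, (hQ q hq).1.2.2.1 i⟩)
    (fun p hp => ⟨(hP p hp).1.1, (hP p hp).1.2.1, (hP p hp).2⟩) (prod_parts hC.1)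
  have a1 : ∀ q ∈ inertPart D, ∃ y : ZMod (F.r i), y ^ 2 ^ F.n i = (q : ZMod (F.r i)) ^ 2 := by
    intro q hq
    rcases (hQ q hq).1.2.2.2 with h | h
    · exact absurd h.1 (hQ q hq).2
    · exact h.2 i
  have a2 : ∀ q ∈ splitPart D, ∃ y : ZMod (F.r i), y ^ 2 ^ F.n i = (q : ZMod (F.r i)) := by
    intro q hq
    rcases (hP q hq).1.2.2.2 with h | h
    · exact h.2 i
    · exact absurd (hP q hq).2 h.1
  rw [det_eq hcf] at c1 c2
  exact ⟨⟨fun h => (c1.1 h).2.2, fun h => c1.2 ⟨a1, a2, h⟩⟩, fun h => c2 ⟨a1, a2, h⟩⟩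

/-- the elements of order two -/
lemma sha_low {F : Fields} {D : ℕ} (hD : Class F D) (i : Fin F.s)
    (hf : FinitePoints (F.K i) D) : 2 ^ corank D ≤ shaTwo (F.K i) D := by
  have hC := (class_iff F D).1 hD
  have hcf : CF D.primeFactors := hC.2.cf
  have : Fact (F.r i).Prime := ⟨F.prime i⟩
  have hM : IsCyclotomicExtension {F.r i} ℚ (CyclotomicField (F.r i) ℚ) :=
    Pool.Agent.Y698.cyc_inst (F.r i)
  have hN : Normal ℚ (F.K i) :=
    (Pool.Agent.Y698.isGalK (F.r i) (F.K i) (M := CyclotomicField (F.r i) ℚ)).to_normal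
  have hir : Pool.Agent.Y698.Inq (F.r i) := ⟨F.prime i, F.mod_four i, F.inert i⟩
  obtain ⟨j, hj⟩ := hcf.prod
  have hDj : D = 1 + 4 * j := by
    rw [← hj, union_A, Nat.prod_primeFactors_of_squarefree hC.1]
  have hQ' : ∀ q ∈ QA D.primeFactors, Pool.Agent.Y698.Inq q ∧ q ≠ F.r i := fun q hq =>
    ⟨QA_inq hcf q hq, (hC.2 q (Finset.mem_filter.1 hq).1).2.2.1 i⟩
  have hP' : ∀ p ∈ PA D.primeFactors, Pool.Agent.Y698.SG.Spl p := PA_spl _
  unfold FinitePoints at hf
  unfold shaTwo
  rw [base_eq hDj] at hf ⊢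
  have b1 : ∀ q, q ∈ (∅ : Finset ℕ) ↔ q ∈ QA D.primeFactors ∧
      ¬ ∃ y : ZMod (F.r i), y ^ 2 ^ F.n i = (q : ZMod (F.r i)) ^ 2 := by
    intro q
    constructor
    · intro h
      exact absurd h (Finset.notMem_empty q)
    · rintro ⟨h1, h2⟩
      exfalso
      obtain ⟨g1, g2⟩ := Finset.mem_filter.1 h1
      rcases (hC.2 q g1).2.2.2 with h | h
      · exact (inq_B (hC.2 q g1).1 (hC.2 q g1).2.1 g2).ns h.1
      · exact h2 (h.2 i)
  have b2 : ∀ p, p ∈ PA D.primeFactors ↔ p ∈ PA D.primeFactors ∧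
      ∃ y : ZMod (F.r i), y ^ 2 ^ F.n i = (p : ZMod (F.r i)) := by
    intro p
    refine ⟨fun h => ⟨h, ?_⟩, fun h => h.1⟩
    obtain ⟨g1, g2⟩ := Finset.mem_filter.1 h
    rcases (hC.2 p g1).2.2.2 with h | h
    · exact h.2 i
    · exact absurd (spl_A g2).sq h.1
  obtain ⟨f, hfi, hf2⟩ := Pool.Agent.Y698.SG.sha_card (CyclotomicField (F.r i) ℚ) (F.K i)
    (F.degree i) (F.n_pos i) hir hQ' hP' hj hf b1 b2
  have h4 : Set.range f ⊆ {x : Sha (Pool.Agent.Y698.AX (F.K i) j) | x + x = 0} := by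
    rintro _ ⟨x, rfl⟩
    exact hf2 x
  have h5 := hfi.encard_range.trans (Set.encard_le_encard h4)
  rw [ENat.card_eq_coe_fintype_card, Fintype.card_fin] at h5
  have hrank : corank D = (PA D.primeFactors ∪ ∅).card -
      (Pool.Agent.Y698.SG.matG (QA D.primeFactors) (PA D.primeFactors) (PA D.primeFactors)
        (PA D.primeFactors ∪ ∅)).rank := by
    have e0 : PA D.primeFactors ∪ ∅ = PA D.primeFactors := Finset.union_empty _
    rw [e0]
    have e1 : Pool.Agent.Y698.SG.matG (QA D.primeFactors) (PA D.primeFactors) (PA D.primeFactors)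
        (PA D.primeFactors) = Pool.Agent.Y698.SG.mat (QA D.primeFactors) (PA D.primeFactors) := by
      ext a b
      unfold Pool.Agent.Y698.SG.matG Pool.Agent.Y698.SG.mat
      rw [Matrix.of_apply, Matrix.of_apply]
      by_cases hab : a = b
      · rw [if_pos hab, if_pos (congrArg Subtype.val hab)]
      · rw [if_neg hab, if_neg (fun h => hab (Subtype.ext h))]
    rw [e1, corank_eq hcf, Q283.GW.rk_eq, rank_null]
  rw [hrank]
  have h6 : ((2 : ℕ∞) ^ ((PA D.primeFactors ∪ ∅).card -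
      (Pool.Agent.Y698.SG.matG (QA D.primeFactors) (PA D.primeFactors) (PA D.primeFactors)
        (PA D.primeFactors ∪ ∅)).rank)) = ((2 ^ ((PA D.primeFactors ∪ ∅).card -
      (Pool.Agent.Y698.SG.matG (QA D.primeFactors) (PA D.primeFactors) (PA D.primeFactors)
        (PA D.primeFactors ∪ ∅)).rank) : ℕ) : ℕ∞) := by push_cast; rfl
  rw [h6]
  exact h5

lemma α_eq (b : ℕ) : α b = Y703.CQ.c2 * Y697.PQ.cf b := by
  unfold α
  have h : ∀ r, Y697.PQ.cf r = (∏ i ∈ Finset.range r, ((2 : ℝ) ^ (i + 1) - 1))⁻¹ := by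
    intro r
    induction r with
    | zero => simp [Y697.PQ.cf]
    | succ r ih =>
      rw [show Y697.PQ.cf (r + 1) = Y697.PQ.cf r / (2 ^ (r + 1) - 1) from rfl, ih,
        Finset.prod_range_succ, mul_inv, div_eq_mul_inv]
  rw [h, div_eq_mul_inv]
  rfl

/-- the joint law of the coranks -/
lemma law (F : Fields) {M : ℕ} (m : Fin M → ℕ) (hm : ∀ k, Class F (m k))
    (hinj : Function.Injective m) (b : Fin M → ℕ) :
    Filter.Tendsto (fun X : ℕ => (count F (fun D => ∀ k, corank (tw (m k) D) = b k) X : ℝ) /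
        (count F (fun _ => True) X : ℝ)) Filter.atTop (nhds (∏ k, α (b k))) := by
  have hm' := fun k => (class_iff F (m k)).1 (hm k)
  have e : ∏ k, α (b k) = cR b := by
    unfold cR
    exact Finset.prod_congr rfl fun k _ => α_eq (b k)
  rw [e]
  refine (law_CL (toFL F) b (fun k => (m k).primeFactors) (fun k => (hm' k).2) ?_).congr fun X =>
    Q283.GW.ratio (fun D => ?_) (fun D => ?_) _
  · intro k l hkl he
    apply hkl
    apply hinj
    rw [← Nat.prod_primeFactors_of_squarefree (hm' k).1, he,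
      Nat.prod_primeFactors_of_squarefree (hm' l).1]
  · have key : ∀ hD : Squarefree D ∧ (toFL F).CL D.primeFactors, ∀ k, corank (tw (m k) D) =
        rk ρ49.Φ nf (symmDiff D.primeFactors (m k).primeFactors) := by
      intro hD k
      have h2 := (tw_pf (hm' k).1 hD.1).2
      rw [corank_eq, h2]
      rw [h2]
      exact (hD.2.symmDiff (hm' k).2).cf
    constructor
    · rintro ⟨hD, h⟩
      exact ⟨(class_iff F D).2 hD, fun k => (key hD k).trans (h k)⟩
    · rintro ⟨hD, h⟩
      have hD' := (class_iff F D).1 hD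
      exact ⟨hD', fun k => (key hD' k).symm.trans (h k)⟩
  · rw [and_true]
    exact (class_iff F D).symm

lemma density_eq (F : Fields) : density F = (toFL F).ρ.δ := by
  unfold density Q283.GM.RC.δ
  have e : (toFL F).ρ.m = modulus F := rfl
  have e2 : (toFL F).ρ.𝒜 ∪ (toFL F).ρ.ℬ = (Finset.range (modulus F)).filter fun a =>
    a.Coprime (modulus F) ∧ AllowedResidue F a := by
    have e3 : (toFL F).ρ.𝒜 = (Finset.range (modulus F)).filter fun a =>
      a.Coprime (modulus F) ∧ (toFL F).cA a := rfl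
    have e4 : (toFL F).ρ.ℬ = (Finset.range (modulus F)).filter fun a =>
      a.Coprime (modulus F) ∧ (toFL F).cB a := rfl
    rw [e3, e4, ← Finset.filter_or]
    refine Finset.filter_congr fun a _ => ?_
    unfold FL.cA FL.cB AllowedResidue
    constructor
    · rintro (⟨h1, h2, h3⟩ | ⟨h1, h2, h3⟩)
      · exact ⟨h1, h2, Or.inl h3⟩
      · exact ⟨h1, h2, Or.inr h3⟩
    · rintro ⟨h1, h2, h3 | h3⟩
      · exact Or.inl ⟨h1, h2, h3⟩
      · exact Or.inr ⟨h1, h2, h3⟩
  rw [e2, e]

end law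

/-- **The exact law of the 2-part of the conjecture of Birch and Swinnerton-Dyer over abelian fields of
2-power degree.** -/
theorem result (F : Fields) :
    Criterion F ∧ TwoPart F ∧ OrderTwo F ∧ ExactProportion F ∧ CorankLaw F ∧ HasSum α 1 ∧ Size F ∧
    0.4194 < κ ∧ κ < 0.4195 := by
  classical
  refine ⟨fun D hD hp => ?_, fun D hD i => ?_, fun D hD i hf => sha_low hD i hf,
    fun M m hm hinj => ?_, fun M m hm hinj b => law F m hm hinj b, ?_, ⟨?_, ?_⟩,
    Pool.Agent.Y948.CQ.t_C2.2.2.2.1, Pool.Agent.Y948.CQ.t_C2.2.2.2.2⟩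
  · constructor
    · intro h
      have hC : Class F D := by
        refine ⟨hD, fun p hpp hd => ⟨hpp, (hp p hpp hd).1, (hp p hpp hd).2, ?_⟩⟩
        have hpm : p ∈ D.primeFactors := Nat.mem_primeFactors.2 ⟨hpp, hd, hD.ne_zero⟩
        have hc : ∀ i, _ := fun i => (crit (F.prime i) (F.mod_four i) (F.inert i) (F.n_pos i) (F.K i)
          (F.degree i) (Q := inertPart D) (P := splitPart D) (D := D)
          (fun q hq => by
            obtain ⟨g1, g2⟩ := Finset.mem_filter.1 hq
            have g3 := hp q (Nat.prime_of_mem_primeFactors g1) (Nat.dvd_of_mem_primeFactors g1)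
            exact ⟨Nat.prime_of_mem_primeFactors g1, g3.1, g2, g3.2 i⟩)
          (fun q hq => by
            obtain ⟨g1, g2⟩ := Finset.mem_filter.1 hq
            have g3 := hp q (Nat.prime_of_mem_primeFactors g1) (Nat.dvd_of_mem_primeFactors g1)
            exact ⟨Nat.prime_of_mem_primeFactors g1, g3.1, g2⟩) (prod_parts hD)).1.1 (h i)
        by_cases h7 : IsSquare (-7 : ZMod p)
        · exact Or.inl ⟨h7, fun i => (hc i).2.1 p (Finset.mem_filter.2 ⟨hpm, h7⟩)⟩
        · exact Or.inr ⟨h7, fun i => (hc i).1 p (Finset.mem_filter.2 ⟨hpm, h7⟩)⟩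
      exact ⟨hC, ((good_iff hC ⟨0, F.s_pos⟩).1).1 (h ⟨0, F.s_pos⟩)⟩
    · rintro ⟨hC, h0⟩ i
      exact (good_iff hC i).1.2 h0
  · obtain ⟨h1, h2⟩ := good_iff hD i
    exact ⟨h1, fun h => h2 (h1.1 h)⟩
  · have h := law F m hm hinj (fun _ => 0)
    have e : ∏ _k : Fin M, α 0 = κ ^ M := by
      rw [Finset.prod_const, Finset.card_univ, Fintype.card_fin]
      congr 1
      unfold α
      simp
    rw [e] at h
    refine h.congr fun X => Q283.GW.ratio (fun D => ?_) (fun D => Iff.rfl) _
    refine and_congr_right fun hD => forall_congr' fun k => ?_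
    have hC := tw_class (hm k) hD
    constructor
    · intro h0
      exact ⟨hC, fun i => (good_iff hC i).1.2 h0⟩
    · rintro ⟨-, h0⟩
      exact (good_iff hC ⟨0, F.s_pos⟩).1.1 (h0 ⟨0, F.s_pos⟩)
  · have e : α = Q283.GS.al := funext fun b => α_eq b
    rw [e]
    exact Q283.GS.hasSum_al
  · rw [density_eq]
    exact (toFL F).ρ.δ_pos
  · rw [density_eq]
    obtain ⟨c, X₀, hc, hX⟩ := Q283.GF.low_CL (toFL F)
    refine ⟨c, X₀, hc, fun X h => ?_⟩
    have h1 := hX X h
    have e1 : (-1 + (toFL F).ρ.δ : ℝ) = (toFL F).ρ.δ - 1 := by ring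
    rw [e1] at h1
    refine h1.trans (le_of_eq ?_)
    refine congrArg (Nat.cast (R := ℝ)) (Q283.GW.cardf (fun D => ?_) _)
    rw [and_true]
    exact (class_iff F D).symm

end Pool.Agent.Results.MP_f50388_nt.ExactLawAbelianFields
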