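import Mathlib
import Pool.Agent.Q283.Q3.Fld2

/-!
# Almost all curves of the family over any infinite sequence of pure cubic fields

`E_D : y² + D y = x³`, a curve over `ℚ`, `3`-isogenous to `x³ + y³ = D`. Let `D` run through ALL
squarefree numbers prime to `3`, not `±1` modulo `9`, with exactly one prime divisor `2` modulo `3`, for
which `E_D(ℚ)` is finite and `Ш(E_D / ℚ)[3^∞] = 0` (these are `56.01… %` of the numbers of the class). Let
`d_0, d_1, d_2, …` be ANY infinite sequence of numbers `1` modulo `9`, with all prime divisors `1` modulo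
`3`, independent modulo cubes (for example of different primes `1` modulo `9`); so the `ℚ(∛d_j)` are ANY
infinite sequence of independent pure cubic fields of this kind.

* For every `N` and `T`, for `100 %` of these `D` there are `T` disjoint sets of `N` indices `j` such that,
  for each of these sets, over EVERY number field `F` generated by cube roots of the `N` numbers `d_j` and
  the cube roots of unity in `F` (that is, `F = ℚ(∛d_j : j ∈ J)` of degree `3 ^ N` and its Galois closure)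
  the group `E_D(F)` is finite, the Euler product of `L(E_D / F, s)` over the places that do not divide
  `6 D ∏ d_j` has an entire continuation which is not zero at `s = 1` (so rank and order are `0` over `F`),
  and `Ш(E_D / F)[3^∞]` is killed by `3 ^ N`, hence finite.
* Law of large numbers for the single fields: for every `n` and `ε > 0` the upper density of the `D` for
  which the frequency of the `j < n` such that all twists of `E_D` by the characters of the Galois closure of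
  `ℚ(∛d_j)` have finite `E(ℚ)` and `Ш[3^∞] = 0` (hence the assertions above hold over `ℚ(∛d_j)` and its Galois
  closure) differs from `c²` by at least `ε`, is at most `c² (1 - c²) / (ε² n)`,
  `c = ∏_{i ≥ 1} (1 - 3^{-i}) = 0.5601…`.
-/

set_option autoImplicit false

open scoped Classical

namespace Pool.Agent.Results.MP_f50388_nt.AlmostAllCurvesPureFields

open NumberField IsDedekindDomain

/-- The curve `E_N : y² + N y = x³` over `ℚ`. -/
def curve (N : ℕ) : WeierstrassCurve ℚ := ⟨0, 0, N, 0, 0⟩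

/-- `D` is squarefree, prime to `3`, not `±1` modulo `9`, and exactly one prime divisor of `D` is `2`
modulo `3`. -/
def Class (D : ℕ) : Prop :=
  Squarefree D ∧ ¬ 3 ∣ D ∧ D % 9 ≠ 1 ∧ D % 9 ≠ 8 ∧
    ∃ q : ℕ, q.Prime ∧ q % 3 = 2 ∧ q ∣ D ∧ ∀ p : ℕ, p.Prime → p ∣ D → p ≠ q → p % 3 = 1

/-- The sequence `d_j`: `1` modulo `9`, all prime divisors `1` modulo `3`, and no product of powers is a
cube, unless all exponents are divisible by `3`. -/
structure Independent (d : ℕ → ℕ) : Prop where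
  nine : ∀ j, d j % 9 = 1
  one : ∀ (j p : ℕ), p.Prime → p ∣ d j → p % 3 = 1
  ind : ∀ (s : Finset ℕ) (e : ℕ → ℕ), (∃ j ∈ s, ¬ 3 ∣ e j) → ∀ c : ℕ, ∏ j ∈ s, d j ^ e j ≠ c ^ 3

/-- `F` is generated by cube roots of the `d_j` and the cube roots of unity in `F`. -/
def IsMulticubic {k : ℕ} (d : Fin k → ℕ) (F : Type) [Field F] [NumberField F] : Prop :=
  ∃ θ : Fin k → F, (∀ j, θ j ^ 3 = (d j : F)) ∧
    IntermediateField.adjoin ℚ ({x : F | x ^ 3 = 1} ∪ Set.range θ) = ⊤

/-- `E_N(ℚ)` is finite and `Ш(E_N / ℚ)[3^∞] = 0`. -/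
def TrivialThree (N : ℕ) : Prop :=
  Finite (curve N).toAffine.Point ∧
    ∀ (n : ℕ) (x : Pool.Agent.TH841.SH.D.Sha (curve N)), 3 ^ n • x = 0 → x = 0

/-- For all `3 ^ k` vectors of exponents `e`, the cube-free part `N` of `D ∏ d_j ^ e_j` has finite
`E_N(ℚ)` and `Ш(E_N / ℚ)[3^∞] = 0`. -/
def AllTwistsTrivial {k : ℕ} (d : Fin k → ℕ) (D : ℕ) : Prop :=
  ∀ e : Fin k → ZMod 3, ∃ N c : ℕ, D * ∏ j, d j ^ (e j).val = N * c ^ 3 ∧
    (∀ p : ℕ, p.Prime → ¬ p ^ 3 ∣ N) ∧ TrivialThree N

/-- `a_v(E_N)`: the norm of `v` minus the number of the affine points of `y² + N y = x³` over the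
residue field of `v`. -/
noncomputable def a {F : Type} [Field F] [NumberField F] (N : ℕ) (v : HeightOneSpectrum (𝓞 F)) : ℤ :=
  ((Ideal.absNorm v.asIdeal : ℕ) : ℤ) -
    ((Nat.card {x : (𝓞 F ⧸ v.asIdeal) × (𝓞 F ⧸ v.asIdeal) //
      x.2 ^ 2 + (N : 𝓞 F ⧸ v.asIdeal) * x.2 = x.1 ^ 3} : ℕ) : ℤ)

/-- The Euler factor of `L(E_N/F, s)` at `v`; it is replaced by `1` if `v` divides `M`. -/
noncomputable def factor {F : Type} [Field F] [NumberField F] (M N : ℕ) (s : ℂ)
    (v : HeightOneSpectrum (𝓞 F)) : ℂ :=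
  if ((M : ℕ) : 𝓞 F) ∈ v.asIdeal then 1 else
    (1 - ((a N v : ℤ) : ℂ) * ((Ideal.absNorm v.asIdeal : ℕ) : ℂ) ^ (-s) +
      ((Ideal.absNorm v.asIdeal : ℕ) : ℂ) ^ (1 - 2 * s))⁻¹

/-- `E_N(F)` is finite, there is an entire function `L` equal to the Euler product of `E_N` over
the places of `F` that do not divide `M` for `Re s > 3/2`, with `L(1) ≠ 0`, and every element of
`3`-power order of `Ш(E_N/F)` is killed by `3 ^ k`. Here `Sha W` is the group of the continuous cocycles
`Gal(F̄/F) → W(F̄)` which are coboundaries at all places of `F`, modulo the coboundaries. -/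
def RankZero (M N k : ℕ) (F : Type) [Field F] [NumberField F] : Prop :=
  Finite ((curve N).baseChange F).toAffine.Point ∧
    (∃ L : ℂ → ℂ, Differentiable ℂ L ∧
      (∀ s : ℂ, 3 / 2 < s.re → HasProd (factor (F := F) M N s) (L s)) ∧ L 1 ≠ 0) ∧
    ∀ (n : ℕ) (x : Pool.Agent.TH841.NF.D.Sha ((curve N).baseChange F)),
      3 ^ n • x = 0 → 3 ^ k • x = 0

/-- Over all fields `F` generated by cube roots of the `d_j` and the cube roots of unity in `F` the curve
`E_D` has rank zero in the sense above; these fields have degrees divisible by `3 ^ k`. -/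
def ZeroOverFields {k : ℕ} (d : Fin k → ℕ) (D : ℕ) : Prop :=
  ∀ (F : Type) [Field F] [NumberField F], IsMulticubic d F →
    3 ^ k ∣ Module.finrank ℚ F ∧ RankZero (6 * D * ∏ j, d j) D k F

/-- the number of the `D ≤ X` in the class with `E_D(ℚ)` finite, `Ш(E_D / ℚ)[3^∞] = 0` and the
property `P` -/
noncomputable def count (P : ℕ → Prop) (X : ℕ) : ℕ :=
  ((Finset.Icc 1 X).filter fun D => (Class D ∧ TrivialThree D) ∧ P D).card

/-- the proportion of the `D` with the property `P` among the `D ≤ X` in the class with `E_D(ℚ)` finite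
and `Ш(E_D / ℚ)[3^∞] = 0` -/
noncomputable def proportion (P : ℕ → Prop) (X : ℕ) : ℝ :=
  (count P X : ℝ) / (count (fun _ => True) X : ℝ)

/-- the number of the `j < n` for which all the twists for the field `ℚ(∛d_j)` are trivial -/
noncomputable def goodCount (d : ℕ → ℕ) (n D : ℕ) : ℕ :=
  ((Finset.range n).filter fun j => AllTwistsTrivial (fun _ : Fin 1 => d j) D).card

/-- `c = ∏_{i ≥ 1} (1 - 3^{-i})` -/
noncomputable def c : ℝ := ∏' i : ℕ, (1 - (1 / 3 : ℝ) ^ (i + 1))

theorem curve_eq (N : ℕ) :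
    curve N = Pool.Agent.Y703.CT.EQ (Pool.Agent.Y703.CT.WD ((N : ℕ) : ℤ)) := by
  ext <;> simp [curve, Pool.Agent.Y703.CT.WD]

theorem triv_eq (N : ℕ) : TrivialThree N ↔ Pool.Agent.Y703.CT.Triv3 N := by
  unfold TrivialThree Pool.Agent.Y703.CT.Triv3
  rw [curve_eq]

theorem class_iff (D : ℕ) : Class D ↔ Squarefree D ∧ Pool.Agent.Y703.CT.Cls D := by
  unfold Class Pool.Agent.Y703.CT.Cls Pool.Agent.Y703.CT.Base
  constructor
  · rintro ⟨h1, h2, h3, h4, h5⟩
    refine ⟨h1, ⟨h1.ne_zero, h2, ?_⟩, h3, h4, h5⟩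
    intro p hp h
    have h6 : p * p ∣ D := (Dvd.intro p (by ring)).trans h
    exact hp.one_lt.ne' (Nat.isUnit_iff.1 (h1 p h6))
  · rintro ⟨h1, ⟨h6, h2, h7⟩, h3, h4, h5⟩
    exact ⟨h1, h2, h3, h4, h5⟩

theorem good_iff (D : ℕ) : (Class D ∧ TrivialThree D) ↔
    (Squarefree D ∧ Pool.Agent.Y703.CT.Cls D) ∧ Q283.Q3N.G3 D := by
  rw [class_iff]
  refine and_congr_right fun hC => ?_
  rw [Q283.Q3N.g3_one hC.2, triv_eq]

theorem all_iff {k : ℕ} {d : Fin k → ℕ} (hd : ∀ j, Q283.Q3N.Mul3 (d j)) {D : ℕ} (hD : Class D) :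
    AllTwistsTrivial d D ↔ Q283.Q3N.AllG d D := by
  have hC := ((class_iff D).1 hD).2
  refine forall_congr' fun e => ?_
  have h := Q283.Q3N.g3_triv hC (Q283.Q3N.mul3_prod hd e)
  refine Iff.trans ?_ h.symm
  refine exists_congr fun N => exists_congr fun c => ?_
  rw [triv_eq]

/-- translation of the proportions -/
theorem prop_eq (P Q : ℕ → Prop) (h : ∀ D, Class D → (Q D ↔ P D)) (X : ℕ) :
    (((Q283.Q3N.GS X).filter fun D => Q D).card : ℝ) / ((Q283.Q3N.GS X).card : ℝ) =
      proportion P X := by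
  unfold proportion count Q283.Q3N.GS Q283.Q3N.SN
  rw [Finset.filter_filter, Finset.filter_filter, Finset.filter_filter]
  congr 2
  · refine Pool.Agent.XLK.fcc fun D _ => ?_
    rw [good_iff]
    constructor
    · rintro ⟨h1, h2, h3⟩
      exact ⟨⟨h1, h2⟩, (h D ((class_iff D).2 h1)).1 h3⟩
    · rintro ⟨⟨h1, h2⟩, h3⟩
      exact ⟨h1, h2, (h D ((class_iff D).2 h1)).2 h3⟩
  · refine Pool.Agent.XLK.fcc fun D _ => ?_
    rw [good_iff]
    exact ⟨fun h => ⟨h, trivial⟩, fun h => h.1⟩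

theorem count_le (P : ℕ → Prop) (X : ℕ) : count P X ≤ count (fun _ => True) X := by
  unfold count
  refine Finset.card_le_card fun D hD => ?_
  simp only [Finset.mem_filter] at hD ⊢
  exact ⟨hD.1, hD.2.1, trivial⟩

theorem result (d : ℕ → ℕ) (hd : Independent d) :
    (∀ N T : ℕ, Filter.Tendsto (proportion fun D => ∃ J : Fin T → Fin N → ℕ,
      Function.Injective (fun p : Fin T × Fin N => J p.1 p.2) ∧
        ∀ t, ZeroOverFields (fun i => d (J t i)) D) Filter.atTop (nhds 1)) ∧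
    (∀ n : ℕ, 0 < n → ∀ ε : ℝ, 0 < ε → ∀ δ : ℝ, 0 < δ → ∃ X₀ : ℕ, ∀ X : ℕ, X₀ ≤ X →
      proportion (fun D => ε ≤ |(goodCount d n D : ℝ) / n - c ^ 2|) X ≤
        c ^ 2 * (1 - c ^ 2) / (ε ^ 2 * n) + δ) ∧
    (∀ D : ℕ, Class D → ∀ j, AllTwistsTrivial (fun _ : Fin 1 => d j) D →
      ZeroOverFields (fun _ : Fin 1 => d j) D) ∧
    0.56 < c ∧ c < 0.5602 := by
  have hm : ∀ j, Q283.Q3N.Mul3 (d j) := fun j => ⟨hd.nine j, hd.one j⟩
  have hI : Q283.Q3N.Indep d := hd.ind
  have hz : ∀ (k : ℕ) (J : Fin k → ℕ), Function.Injective J → ∀ D : ℕ, Class D →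
      Q283.Q3N.AllG (fun i => d (J i)) D → ZeroOverFields (fun i => d (J i)) D := by
    rintro k J hJ D hD hA F _ _ ⟨θ, hθ, hgen⟩
    have hC := ((class_iff D).1 hD).2
    obtain ⟨h1, ⟨h2, L, h3, h4, h5⟩, h6⟩ := Q283.Q3N.fld (fun _ => hm _)
      (Q283.Q3N.ind_sub hm hI hJ) hC.1.1 hA hθ hgen
    refine ⟨h1, ?_, ⟨L, h3, fun s hs => (h4 s hs).congr_fun fun v => rfl, h5⟩, ?_⟩
    · rw [curve_eq]
      exact h2
    · rw [curve_eq]
      exact h6
  refine ⟨fun N T => ?_, ?_, ?_, ?_⟩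
  · have h := Q283.Q3N.many_fields hm hI N T
    rw [tendsto_order] at h ⊢
    have hle : ∀ X, proportion (fun D => ∃ J : Fin T → Fin N → ℕ,
        Function.Injective (fun p : Fin T × Fin N => J p.1 p.2) ∧
          ∀ t, ZeroOverFields (fun i => d (J t i)) D) X ≤ 1 := by
      intro X
      unfold proportion
      exact div_le_one_of_le₀ (Nat.cast_le.2 (count_le _ X)) (Nat.cast_nonneg _)
    refine ⟨fun b hb => ?_, fun b hb => Filter.Eventually.of_forall fun X => (hle X).trans_lt hb⟩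
    filter_upwards [h.1 b hb] with X hX
    refine hX.trans_le ?_
    rw [prop_eq _ _ (fun D _ => Iff.rfl)]
    unfold proportion
    refine div_le_div_of_nonneg_right ?_ (Nat.cast_nonneg _)
    unfold count
    rw [Nat.cast_le]
    refine Finset.card_le_card fun D hD => ?_
    rw [Finset.mem_filter] at hD ⊢
    obtain ⟨h1, h2, B, hB, h3⟩ := hD
    refine ⟨h1, h2, fun t => Q283.Q3N.bl N (B.orderEmbOfFin hB t), ?_, fun t => ?_⟩
    · rintro ⟨t, i⟩ ⟨t', i'⟩ hti
      obtain ⟨h4, h5⟩ := Q283.Q3N.bl_inj2 hti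
      have h6 := (B.orderEmbOfFin hB).injective h4
      have h7 : t = t' := h6
      have h8 : i = i' := h5
      rw [h7, h8]
    · exact hz N _ (Q283.Q3N.bl_inj N _) D h2.1 (h3 _ (Finset.orderEmbOfFin_mem B hB t))
  · intro n hn ε hε δ hδ
    obtain ⟨X₀, h⟩ := Filter.eventually_atTop.1 (Q283.Q3N.lln_fields hm hI 1 n hn ε hε δ hδ)
    refine ⟨X₀, fun X hX => ?_⟩
    have h1 := h X hX
    have h2 : Pool.Agent.Y703.CX.c3 ^ (3 ^ 1 - 1) = c ^ 2 := rfl
    rw [h2] at h1
    refine le_trans (le_of_eq ?_) h1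
    refine (prop_eq _ _ (fun D hD => ?_) X).symm
    have h3 : ((Finset.range n).filter fun b =>
        Q283.Q3N.AllG (fun i => d (Q283.Q3N.bl 1 b i)) D).card = goodCount d n D := by
      unfold goodCount
      refine Pool.Agent.XLK.fcc fun b _ => ?_
      have h4 : (fun i : Fin 1 => d (Q283.Q3N.bl 1 b i)) = fun _ : Fin 1 => d b := by
        funext i
        unfold Q283.Q3N.bl
        have := i.2
        congr 1
        omega
      rw [h4]
      exact (all_iff (fun _ => hm _) hD).symm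
    rw [h3]
  · intro D hD j hA
    exact hz 1 (fun _ => j) (fun a b _ => Subsingleton.elim a b) D hD
      ((all_iff (fun _ => hm _) hD).1 hA)
  · obtain ⟨h1, -, -, h4⟩ := Pool.Agent.Y461.CX.t_C3
    refine ⟨h4, ?_⟩
    have h5 := (abs_le.1 (h1 10)).1
    have h6 : ∏ i ∈ Finset.range 10, (1 - (1 / 3 : ℝ) ^ (i + 1)) < 0.56015 := by
      norm_num [Finset.prod_range_succ]
    have h7 : (1 / 3 : ℝ) ^ 10 < 0.00002 := by norm_num
    have h8 : c = Pool.Agent.Y703.CX.c3 := rfl
    rw [h8]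
    linarith

end Pool.Agent.Results.MP_f50388_nt.AlmostAllCurvesPureFields
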