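import Mathlib
import Pool.Agent.TH841.TR.Fin2
import Pool.Agent.Q1.RS.Frq
import Pool.Agent.Q1.RS.Pack

/-!
# Non-constant families of elliptic curves over varying multiquadratic fields, along sequences

`W_t : y² = x³ + A(t) x + B(t) = (x - e₁(t)) (x - e₂(t)) (x - e₃(t))` with polynomials `e_i` such
that `e₂ - e₁ = D₀ u₀`, `e₃ - e₁ = D₀ u₁`, `e₂ - e₃ = D₀ u₂`, where `u_k` is a constant times
a product of `n_k` irreducible polynomials, these `n₀ + n₁ + n₂` irreducible polynomials being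
pairwise different, and `D₀` is any nonzero polynomial not divisible by one of them. The curve `W_t`
is considered over the field `F_t = ℚ(√D₁(t), ..., √D_r(t))`, for arbitrary nonzero polynomials
`D_i` not divisible by one of these polynomials. For a set `T` of indices let `s_k(T)` be the number
of the irreducible factors of `u_k` at which the twist of the family by `∏_{i ∈ T} D_i` has split
multiplicative reduction, and assume `2 n_k + s_k(T) ≤ n₀ + n₁ + n₂` for all `k` and `T` (for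
instance `n₀ = n₁ = n₂`). Let `ρ(t) = rank W_t(F_t) + corank of the 2-primary part of Ш(W_t / F_t)`.

The starting file `UnbalancedFamiliesVaryingFields` bounds the average of `2 ^ (ρ(t) / 2 ^ r)` over
the integers `t` of short intervals. Here `t = ⌊α x_n⌋` for an arbitrary sequence `x_n` of real
numbers.

* For every real sequence `x_n` and almost every `α`: `ρ(t) ≤ (2 ^ r / log 2 + ε) log n`.
* If `x_(n+1) ≥ x_n ^ (1 + δ)` then for almost every `α` the proportion of the `n` with `ρ(t) ≥ m`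
  is at most `K / 2 ^ (m / 2 ^ r)` for every `m`, with `K` independent of `α` and of the sequence.
* For such sequences `ρ(t) ≤ R` for ALL `n`, for all `α` in a set of Hausdorff dimension one.
-/

set_option autoImplicit false

namespace Pool.Agent.Results.MP_f50388_nt.FamiliesAlongSequences

open Finset Filter Polynomial MeasureTheory

open Pool.Agent.TH841.NF.D (HasDiv crk rk)

/-- the curve `y² = x³ + A x + B` over `F` -/
def EF (A B : ℤ) (F : Type) [Field F] : WeierstrassCurve F := ⟨0, 0, 0, (A : F), (B : F)⟩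

/-- the number field `F` is generated by square roots of the integers `d i` -/
def Gen (F : Type) [Field F] [NumberField F] {r : ℕ} (d : Fin r → ℤ) : Prop :=
  ∃ x : Fin r → F, (∀ i, x i ^ 2 = (d i : F)) ∧
    IntermediateField.adjoin ℚ (Set.range x) = ⊤

/-- `u_k = a_k ∏ f_{k,i}` -/
noncomputable def u {n : Fin 3 → ℕ} (a : Fin 3 → ℤ) (f : ∀ k : Fin 3, Fin (n k) → ℤ[X])
    (k : Fin 3) : ℤ[X] := C (a k) * ∏ i, f k i

/-- `v` is a square modulo `f`, over the rationals -/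
def SqMod (f v : ℤ[X]) : Prop := ∃ q : ℚ[X], f.map (Int.castRingHom ℚ) ∣
  (q ^ 2 - v.map (Int.castRingHom ℚ))

/-- modulo a factor `f` of `u_k`, the curve `y² = x (x - D u₀) (x - D u₁)` has a node whose tangent
directions are the square roots of `v_k`; so the reduction at `f` is split if and only if `v_k` is a
square modulo `f` -/
noncomputable def v {n : Fin 3 → ℕ} (D : ℤ[X]) (a : Fin 3 → ℤ)
    (f : ∀ k : Fin 3, Fin (n k) → ℤ[X]) : Fin 3 → ℤ[X] :=
  ![-(D * u a f 1), -(D * u a f 0), D * u a f 0]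

open Classical in
/-- the number of the factors of `u_k` at which `y² = x (x - D u₀) (x - D u₁)` has split
multiplicative reduction -/
noncomputable def s {n : Fin 3 → ℕ} (D : ℤ[X]) (a : Fin 3 → ℤ)
    (f : ∀ k : Fin 3, Fin (n k) → ℤ[X]) (k : Fin 3) : ℕ :=
  (univ.filter (fun i => SqMod (f k i) (v D a f k))).card

/-- `t` is not a zero of the polynomials `D₀ u_k` and `D_i` -/
def Good {n : Fin 3 → ℕ} {r : ℕ} (a : Fin 3 → ℤ) (f : ∀ k : Fin 3, Fin (n k) → ℤ[X])
    (D₀ : ℤ[X]) (D : Fin r → ℤ[X]) (t : ℤ) : Prop :=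
  (∀ k, (D₀ * u a f k).eval t ≠ 0) ∧ ∀ i, (D i).eval t ≠ 0

/-- the rank of the group of the points plus the corank of the 2-primary part of the
Tate-Shafarevich group, for the curve `y² = x³ + A(t) x + B(t)` over the field `F` -/
noncomputable def rho (A B : ℤ[X]) (t : ℤ) (F : Type) [Field F] [NumberField F] : ℕ :=
  rk (EF (A.eval t) (B.eval t) F) + crk (EF (A.eval t) (B.eval t) F)

open Classical in
/-- the bound: the sum of the orders of the 2-Selmer groups of the twists -/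
noncomputable def bd {n : Fin 3 → ℕ} {r : ℕ} (a : Fin 3 → ℤ)
    (f : ∀ k : Fin 3, Fin (n k) → ℤ[X]) (D₀ : ℤ[X]) (D : Fin r → ℤ[X]) (t : ℤ) : ℝ :=
  if Good a f D₀ D t then ∑ T : Finset (Fin r),
    Pool.Agent.W307.SE.SN (((D₀ * ∏ i ∈ T, D i) * u a f 0).eval t)
      (((D₀ * ∏ i ∈ T, D i) * u a f 1).eval t) else 0

theorem bd_nonneg {n : Fin 3 → ℕ} {r : ℕ} (a : Fin 3 → ℤ)
    (f : ∀ k : Fin 3, Fin (n k) → ℤ[X]) (D₀ : ℤ[X]) (D : Fin r → ℤ[X]) (t : ℤ) :
    0 ≤ bd a f D₀ D t := by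
  rw [bd]
  split_ifs
  · exact sum_nonneg fun _ _ => Pool.Agent.W307.SE.SN_nonneg _ _
  · exact le_rfl

open Classical in
/-- **Theorem.** Let `u_k = a_k ∏_{i < n_k} f_{k,i}`, `k = 0, 1, 2`, be polynomials with integer
coefficients with `u₀ - u₁ = u₂`, where `a_k ≠ 0` and the `n₀ + n₁ + n₂` polynomials `f_{k,i}` are
irreducible of positive degree and pairwise non-associated, let `D₀`, ..., `D_r` be nonzero
polynomials with integer coefficients not divisible by any `f_{k,i}`, and `A`, `B`, `e₁`, `e₂`, `e₃`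
polynomials with integer coefficients such that `x³ + A x + B = (x - e₁) (x - e₂) (x - e₃)`,
`e₂ - e₁ = D₀ u₀` and `e₃ - e₁ = D₀ u₁`. For `T ⊆ {1, ..., r}` let `s_k(T)` be the number of the
`i` such that the twist by `D₀ ∏_{l ∈ T} D_l` of `y² = x (x - u₀) (x - u₁)` has split multiplicative
reduction at `f_{k,i}`. Assume that `2 n_k + s_k(T) ≤ n₀ + n₁ + n₂` for all `k` and `T`. Let
`F t = ℚ(√D₁(t), ..., √D_r(t))` and `W t : y² = x³ + A(t) x + B(t)` over `F t`,
`ρ t = rank W_t(F_t) + corank Ш(W_t / F_t)[2^∞]` (finite), for `t` not a zero of the polynomials.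

* (1) For every real sequence `x_n` and almost every real `α`: for all `ε > 0`, from some `n` on,
  `ρ t ≤ (2 ^ r / log 2 + ε) log n` for `t = ⌊α x_n⌋` if this is not a zero of the polynomials.
* (2) For all `δ > 0` there is `K` such that for every sequence `x_n → ∞` with
  `x_(n+1) ≥ x_n ^ (1 + δ)` from some `n` on and for almost every `α`, for every `m` and from some
  `N` on: at most `K N / 2 ^ (m / 2 ^ r)` of the `n < N` have `ρ t ≥ m`, `t = ⌊α x_n⌋`.
* (3) For all `δ > 0` there is `R` such that for all `p < q` and all sequences with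
  `x_(n+1) ≥ x_n ^ (1 + δ)` for all `n` and `x_0` large enough (in terms of `p` and `q`) the set of
  the `α` in `[p, q]` such that for all `n` the number `t = ⌊α x_n⌋` is not a zero of the polynomials
  and `ρ t ≤ R` has Hausdorff dimension one. -/
theorem result (n : Fin 3 → ℕ) (r : ℕ) (a : Fin 3 → ℤ) (f : ∀ k : Fin 3, Fin (n k) → ℤ[X])
    (ha : ∀ k, a k ≠ 0) (hf : ∀ k i, Irreducible (f k i) ∧ 0 < (f k i).natDegree)
    (hf' : ∀ k i l j, (⟨k, i⟩ : Σ k : Fin 3, Fin (n k)) ≠ ⟨l, j⟩ → ¬ Associated (f k i) (f l j))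
    (hu : u a f 0 - u a f 1 = u a f 2)
    (D₀ : ℤ[X]) (hD₀ : D₀ ≠ 0) (hDf₀ : ∀ k i, ¬ f k i ∣ D₀)
    (D : Fin r → ℤ[X]) (hD : ∀ l, D l ≠ 0) (hDf : ∀ l k i, ¬ f k i ∣ D l)
    (hs : ∀ (T : Finset (Fin r)) (k : Fin 3),
      2 * n k + s (D₀ * ∏ i ∈ T, D i) a f k ≤ n 0 + n 1 + n 2)
    (A B e₁ e₂ e₃ : ℤ[X])
    (he : ∀ t x : ℤ, x ^ 3 + A.eval t * x + B.eval t =
      (x - e₁.eval t) * (x - e₂.eval t) * (x - e₃.eval t))
    (h12 : e₂ - e₁ = D₀ * u a f 0) (h13 : e₃ - e₁ = D₀ * u a f 1) :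
    (∀ (F : ℤ → Type) [∀ t, Field (F t)] [∀ t, NumberField (F t)],
      (∀ t, Good a f D₀ D t → Gen (F t) (fun i => (D i).eval t)) →
      (∀ t, Good a f D₀ D t → BddAbove {q | HasDiv (EF (A.eval t) (B.eval t) (F t)) q}) ∧
      ∀ x : ℕ → ℝ, ∀ᵐ α : ℝ, ∀ ε : ℝ, 0 < ε → ∀ᶠ n : ℕ in atTop, Good a f D₀ D ⌊α * x n⌋ →
        (rho A B ⌊α * x n⌋ (F ⌊α * x n⌋) : ℝ) ≤ (2 ^ r / Real.log 2 + ε) * Real.log n) ∧
    (∀ δ : ℝ, 0 < δ → ∃ K : ℝ, ∀ (F : ℤ → Type) [∀ t, Field (F t)]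
      [∀ t, NumberField (F t)], (∀ t, Good a f D₀ D t → Gen (F t) (fun i => (D i).eval t)) →
      ∀ x : ℕ → ℝ, Tendsto x atTop atTop → (∀ᶠ n in atTop, x n ^ (1 + δ) ≤ x (n + 1)) →
      ∀ᵐ α : ℝ, ∀ m : ℕ, ∀ᶠ N : ℕ in atTop,
        (((range N).filter (fun n => Good a f D₀ D ⌊α * x n⌋ ∧
          m ≤ rho A B ⌊α * x n⌋ (F ⌊α * x n⌋))).card : ℝ) ≤
            K * N / ((2 : ℝ) ^ m) ^ ((1 : ℝ) / 2 ^ r)) ∧
    (∀ δ : ℝ, 0 < δ → ∃ R : ℕ, ∀ (F : ℤ → Type) [∀ t, Field (F t)] [∀ t, NumberField (F t)],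
      (∀ t, Good a f D₀ D t → Gen (F t) (fun i => (D i).eval t)) →
      ∀ p q : ℝ, p < q → ∃ X₀ : ℝ, ∀ x : ℕ → ℝ, X₀ ≤ x 0 → (∀ n, x n ^ (1 + δ) ≤ x (n + 1)) →
      dimH {α : ℝ | p ≤ α ∧ α ≤ q ∧ ∀ n, Good a f D₀ D ⌊α * x n⌋ ∧
        rho A B ⌊α * x n⌋ (F ⌊α * x n⌋) ≤ R} = 1) := by
  have hirr : Pool.Agent.TH841.PT.Irr (Pool.Agent.TH841.TR.fp f) :=
    ⟨fun x => (hf x.1 x.2).1, fun x => (hf x.1 x.2).2, fun x y hxy => hf' x.1 x.2 y.1 y.2 hxy⟩
  have hB : ∀ T : Finset (Fin r), Pool.Agent.TH841.TR.Bal (D₀ * ∏ i ∈ T, D i) a f := fun T =>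
    Pool.Agent.TH841.TR.bal_of (v := v (D₀ * ∏ i ∈ T, D i) a f) rfl rfl rfl (hs T)
  have hne : ∀ T : Finset (Fin r), D₀ * ∏ i ∈ T, D i ≠ 0 := fun T =>
    mul_ne_zero hD₀ (prod_ne_zero_iff.2 fun i _ => hD i)
  set g : ℤ → ℝ := bd a f D₀ D with hgd
  have hg0 : ∀ t, 0 ≤ g t := bd_nonneg a f D₀ D
  -- the first moment
  have hmom : Pool.Agent.Q1.RS.Mom g 1 := by
    intro L
    choose C hC0 hC using fun T : Finset (Fin r) => Pool.Agent.TH841.TR.pen_all
      Pool.Agent.TH841.TR.tav3x a f ha hirr hu (D₀ * ∏ i ∈ T, D i) (hne T)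
      (fun k i => Pool.Agent.TH841.PT.prod_ndvd (hirr.irr ⟨k, i⟩) (hDf₀ k i)
        (fun l => hDf l k i) T) (hB T) L
    refine ⟨∑ T, C T, fun N M hM hN => ?_⟩
    have h1 : ∑ t ∈ Ioc N (N + M), g t ^ 1 =
        ∑ t ∈ (Ioc N (N + M)).filter (fun t => Good a f D₀ D t), ∑ T : Finset (Fin r),
          Pool.Agent.W307.SE.SN (((D₀ * ∏ i ∈ T, D i) * u a f 0).eval t)
            (((D₀ * ∏ i ∈ T, D i) * u a f 1).eval t) := by
      rw [sum_filter]
      refine sum_congr rfl fun t _ => ?_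
      rw [pow_one, hgd, bd]
    rw [h1, sum_comm, sum_mul]
    refine sum_le_sum fun T _ => ?_
    refine le_trans ?_ (hC T N M (by omega) hN)
    refine sum_le_sum_of_subset_of_nonneg ?_ fun t _ _ => Pool.Agent.W307.SE.SN_nonneg _ _
    intro t ht
    rw [mem_filter] at ht
    rw [mem_filter]
    refine ⟨ht.1, fun k h0 => ?_⟩
    rw [eval_mul, eval_mul, eval_prod] at h0
    have h3 := ht.2.1 k
    rw [eval_mul] at h3
    rcases mul_eq_zero.1 h0 with h4 | h4
    · rcases mul_eq_zero.1 h4 with h5 | h5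
      · exact left_ne_zero_of_mul h3 h5
      · obtain ⟨i, _, hi⟩ := prod_eq_zero_iff.1 h5
        exact ht.2.2 i hi
    · exact right_ne_zero_of_mul h3 h4
  -- the bound for one `t`
  have hbd : ∀ t, Good a f D₀ D t → ∀ (F : Type) [Field F] [NumberField F],
      Gen F (fun i => (D i).eval t) → BddAbove {q | HasDiv (EF (A.eval t) (B.eval t) F) q} ∧
        ((2 : ℝ) ^ rho A B t F) ^ ((1 : ℝ) / 2 ^ r) ≤ g t := by
    intro t ht F _ _ hF
    have h := Pool.Agent.TH841.TR.penF_aux a f hu r D₀ D A B e₁ e₂ e₃ he h12 h13 {t}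
      (fun t' ht' => by rw [mem_singleton.1 ht']; exact ht) (g t) (fun T => by
        rw [sum_singleton, hgd, bd, if_pos ht]
        exact single_le_sum (f := fun T : Finset (Fin r) =>
          Pool.Agent.W307.SE.SN (((D₀ * ∏ i ∈ T, D i) * u a f 0).eval t)
            (((D₀ * ∏ i ∈ T, D i) * u a f 1).eval t))
          (fun T _ => Pool.Agent.W307.SE.SN_nonneg _ _) (mem_univ T))
      (fun _ => F) (fun t' ht' => by rw [mem_singleton.1 ht']; exact hF)
      (fun t' => EF (A.eval t') (B.eval t') F) (fun _ => rfl)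
    refine ⟨h.1 t (mem_singleton_self t), ?_⟩
    have h2 := h.2.1
    rw [sum_singleton] at h2
    exact h2
  have h2r : (0 : ℝ) < 1 / 2 ^ r := by positivity
  have hlog2 : 0 < Real.log 2 := Real.log_pos (by norm_num)
  refine ⟨fun F _ _ hF => ⟨fun t ht => (hbd t ht (F t) (hF t ht)).1, fun x => ?_⟩, ?_, ?_⟩
  · -- growth
    have h1 : ∀ j : ℕ, ∀ᵐ α : ℝ, ∀ᶠ n : ℕ in atTop,
        g ⌊α * x n⌋ ≤ (n : ℝ) ^ (1 + 1 / ((j : ℝ) + 1)) := by
      intro j
      refine Pool.Agent.Q1.RS.growth_ae hg0 hmom ?_ x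
      rw [Nat.cast_one, mul_one]
      have : 0 < 1 / ((j : ℝ) + 1) := by positivity
      linarith
    filter_upwards [ae_all_iff.2 h1] with α hα ε hε
    obtain ⟨j, hj⟩ := exists_nat_one_div_lt (show 0 < ε * Real.log 2 / 2 ^ r by positivity)
    filter_upwards [hα j, eventually_ge_atTop 1] with n h2 hn h3
    have hn0 : (0 : ℝ) < n := by exact_mod_cast hn
    have hn1 : (1 : ℝ) ≤ n := by exact_mod_cast hn
    have hl : 0 ≤ Real.log n := Real.log_nonneg hn1
    have h4 := ((hbd _ h3 _ (hF _ h3)).2).trans h2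
    have h5 := Real.log_le_log (by positivity) h4
    rw [Real.log_rpow (by positivity), Real.log_pow, Real.log_rpow hn0] at h5
    set R := (rho A B ⌊α * x n⌋ (F ⌊α * x n⌋) : ℝ) with hR
    have h6 : R * Real.log 2 ≤ 2 ^ r * ((1 + 1 / ((j : ℝ) + 1)) * Real.log n) := by
      have h7 := mul_le_mul_of_nonneg_left h5 (show (0 : ℝ) ≤ 2 ^ r by positivity)
      refine le_trans (le_of_eq ?_) h7
      field_simp
    have h8 : (1 + 1 / ((j : ℝ) + 1)) * Real.log n ≤
        (1 + ε * Real.log 2 / 2 ^ r) * Real.log n :=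
      mul_le_mul_of_nonneg_right (by linarith) hl
    have h9 : R * Real.log 2 ≤ ((2 ^ r / Real.log 2 + ε) * Real.log n) * Real.log 2 := by
      refine h6.trans ((mul_le_mul_of_nonneg_left h8 (by positivity)).trans (le_of_eq ?_))
      field_simp
    exact le_of_mul_le_mul_right h9 hlog2
  · -- frequencies
    intro δ hδ
    obtain ⟨K, hK0, hK⟩ := Pool.Agent.Q1.RS.freq_ae hg0 hmom hδ
    refine ⟨K, fun F _ _ hF x hxt hx => ?_⟩
    have h1 : ∀ m : ℕ, ∀ᵐ α : ℝ, ∀ᶠ N : ℕ in atTop,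
        (((range N).filter (fun n => ((2 : ℝ) ^ m) ^ ((1 : ℝ) / 2 ^ r) ≤
          g ⌊α * x n⌋)).card : ℝ) ≤ K * N / ((2 : ℝ) ^ m) ^ ((1 : ℝ) / 2 ^ r) := by
      intro m
      have h2 := hK x hxt hx (((2 : ℝ) ^ m) ^ ((1 : ℝ) / 2 ^ r)) (by positivity)
      simpa only [pow_one] using h2
    filter_upwards [ae_all_iff.2 h1] with α hα m
    filter_upwards [hα m] with N hN
    refine le_trans ?_ hN
    refine Nat.cast_le.2 (card_le_card fun n hn => ?_)
    rw [mem_filter] at hn ⊢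
    refine ⟨hn.1, le_trans ?_ (hbd _ hn.2.1 _ (hF _ hn.2.1)).2⟩
    exact Real.rpow_le_rpow (by positivity) (pow_le_pow_right₀ (by norm_num) hn.2.2) h2r.le
  · -- dimension
    intro δ hδ
    have hZ : {t : ℤ | ¬ Good a f D₀ D t}.Finite := by
      have hu0 : ∀ k, u a f k ≠ 0 := fun k => mul_ne_zero (C_ne_zero.2 (ha k))
        (prod_ne_zero_iff.2 fun i _ => (hf k i).1.ne_zero)
      have h1 : {t : ℤ | ¬ Good a f D₀ D t} ⊆
          (((∏ k, (D₀ * u a f k)) * ∏ i, D i).roots.toFinset : Set ℤ) := by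
        intro t ht
        rw [mem_coe, Multiset.mem_toFinset, mem_roots (mul_ne_zero
          (prod_ne_zero_iff.2 fun k _ => mul_ne_zero hD₀ (hu0 k))
          (prod_ne_zero_iff.2 fun i _ => hD i)), IsRoot, eval_mul, eval_prod, eval_prod]
        by_contra h2
        have h3 := mul_ne_zero_iff.1 h2
        exact ht ⟨fun k => prod_ne_zero_iff.1 h3.1 k (mem_univ k),
          fun i => prod_ne_zero_iff.1 h3.2 i (mem_univ i)⟩
      exact (finite_toSet _).subset h1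
    obtain ⟨R, hR⟩ := Pool.Agent.Q1.RS.dim_mom' hg0 one_ne_zero hmom hZ hδ
    obtain ⟨R', hR'⟩ : ∃ R' : ℕ, R < ((2 : ℝ) ^ R') ^ ((1 : ℝ) / 2 ^ r) := by
      obtain ⟨R', hR'⟩ := pow_unbounded_of_one_lt (max R 1 ^ ((2 : ℝ) ^ r))
        (show (1 : ℝ) < 2 by norm_num)
      refine ⟨R', ?_⟩
      have h1 : (0 : ℝ) ≤ max R 1 ^ ((2 : ℝ) ^ r) := by positivity
      have h2 := Real.rpow_lt_rpow h1 hR' h2r
      rw [← Real.rpow_mul (by positivity), mul_one_div_cancel (by positivity), Real.rpow_one] at h2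
      exact lt_of_le_of_lt (le_max_left _ _) h2
    refine ⟨R', fun F _ _ hF p q hpq => ?_⟩
    obtain ⟨X₀, hX₀⟩ := hR p q hpq
    refine ⟨X₀, fun x hx0 hx => ?_⟩
    refine le_antisymm ((dimH_mono (Set.subset_univ _)).trans (by rw [Real.dimH_univ])) ?_
    rw [← hX₀ x hx0 hx]
    refine dimH_mono fun α hα => ⟨hα.1, hα.2.1, fun n => ?_⟩
    obtain ⟨h1, h2⟩ := hα.2.2 n
    have h3 : Good a f D₀ D ⌊α * x n⌋ := not_not.1 h1
    refine ⟨h3, ?_⟩
    have h4 := (((hbd _ h3 _ (hF _ h3)).2).trans h2).trans_lt hR'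
    have h5 := (Real.rpow_lt_rpow_iff (by positivity) (by positivity) h2r).1 h4
    exact ((pow_lt_pow_iff_right₀ (by norm_num)).1 h5).le

end Pool.Agent.Results.MP_f50388_nt.FamiliesAlongSequences
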