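import Mathlib
import Pool.Agent.Q283.MC.Tow

/-!
# Rank zero over pure multicubic fields of every degree for a positive proportion of the prime twists

`E_N : y² + N y = x³`, a curve over `ℚ`, `3`-isogenous to `x³ + y³ = N`. Let `N` be any cube-free
number prime to `3` such that exactly one prime `q = 2` modulo `3` divides `N`, and let
`d_1, …, d_k` (`k` arbitrary) be numbers `= 1` modulo `9`, all of whose prime factors are `= 1`
modulo `3`, independent modulo cubes. There is no condition on the ranks, on the Tate-Shafarevich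
groups or on the `L`-series of the cubic twists of `E_N`.

Then there is a squarefree `m`, a product of primes `= 1` modulo `9` prime to `N`, such that for a
positive proportion (a set of positive density `δ` among the primes `ℓ = 1` modulo `3`) of the primes
`ℓ` the curve `E = E_{N m ℓ}` satisfies the rank part of the conjecture of Birch and
Swinnerton-Dyer, rank = order of vanishing = `0`, over EVERY number field `F` generated by cube roots
of `d_1, …, d_k` and the cube roots of unity in `F`, that is, `F = ℚ(∛d_1, …, ∛d_k)`, of degree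
`3 ^ k` and not Galois over `ℚ`, and its Galois closure `F = ℚ(ω, ∛d_1, …, ∛d_k)`, of degree
`2 · 3 ^ k`: `E(F)` is finite, and the Euler product of `L(E/F, s)` over the places of `F` that do not
divide `6 N m ℓ d_1 ⋯ d_k` has an entire continuation which is not zero at `s = 1`. (The Euler factors
at the other places are finite and different from zero at `s = 1`, so the order at `1` is the one of
the complete function.)

The proof: (1) `L(E_N/F, s)` is, up to these factors, the product (for `F = ℚ(∛d_j)`) or the square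
of the product (for `F = ℚ(ω, ∛d_j)`) of the `3 ^ k` functions `L(E_D/ℚ, s)`, `D` the cube-free parts
of the `N ∏ d_j ^ e_j`; the residue degrees are computed by counting the homomorphisms to a residue
field of the ring of all algebraic integers. (2) `E_N(F)` is finite if all the `E_D(ℚ)` are.
(3) For `N m ℓ` these are the common prime twists of the family of all `D m`
(`MP_e23604_nt.CommonCubicTwist`), for which finiteness of `E(ℚ)` and `L(E, 1) ≠ 0` is known for a
positive proportion of the `ℓ`; the criterion for one `D` is from the starting library.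
-/

set_option autoImplicit false

open scoped Classical

namespace Pool.Agent.Results.MP_f50388_nt.PureMulticubicFields

open NumberField IsDedekindDomain

/-- The curve `E_N : y² + N y = x³` over `ℚ`. -/
def curve (N : ℕ) : WeierstrassCurve ℚ := ⟨0, 0, N, 0, 0⟩

/-- `D` is prime to `3` and cube-free, and exactly one prime `q = 2` modulo `3` divides it. -/
def Base (D : ℕ) : Prop :=
  D ≠ 0 ∧ ¬ 3 ∣ D ∧ (∀ p : ℕ, p.Prime → ¬ p ^ 3 ∣ D) ∧
    ∃ q : ℕ, q.Prime ∧ q % 3 = 2 ∧ q ∣ D ∧ ∀ p : ℕ, p.Prime → p ∣ D → p ≠ q → p % 3 = 1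

/-- No product `∏ d_j ^ e_j` with exponents `0, 1, 2`, not all zero, is a cube. -/
def Independent {k : ℕ} (d : Fin k → ℕ) : Prop :=
  ∀ e : Fin k → ZMod 3, e ≠ 0 → ∀ c : ℕ, ∏ j, d j ^ (e j).val ≠ c ^ 3

/-- `a_v(E_N)`: the norm of `v` minus the number of the affine points of `y² + N y = x³` over the
residue field of `v`. -/
noncomputable def a {F : Type} [Field F] [NumberField F] (N : ℕ) (v : HeightOneSpectrum (𝓞 F)) : ℤ :=
  ((Ideal.absNorm v.asIdeal : ℕ) : ℤ) -
    ((Nat.card {x : (𝓞 F ⧸ v.asIdeal) × (𝓞 F ⧸ v.asIdeal) //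
      x.2 ^ 2 + (N : 𝓞 F ⧸ v.asIdeal) * x.2 = x.1 ^ 3} : ℕ) : ℤ)

/-- The Euler factor of `L(E_N/F, s)` at `v`; it is replaced by `1` if `v` divides `M`. -/
noncomputable def factor {F : Type} [Field F] [NumberField F] (M N : ℕ) (s : ℂ)
    (v : HeightOneSpectrum (𝓞 F)) : ℂ :=
  if ((M : ℕ) : 𝓞 F) ∈ v.asIdeal then 1 else
    (1 - ((a N v : ℤ) : ℂ) * ((Ideal.absNorm v.asIdeal : ℕ) : ℂ) ^ (-s) +
      ((Ideal.absNorm v.asIdeal : ℕ) : ℂ) ^ (1 - 2 * s))⁻¹

/-- `E_N(F)` is finite, and there is an entire function `L` equal to the Euler product of `E_N` over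
the places of `F` that do not divide `M` for `Re s > 3/2`, with `L(1) ≠ 0`. -/
def RankZero (M N : ℕ) (F : Type) [Field F] [NumberField F] : Prop :=
  Finite ((curve N).baseChange F).toAffine.Point ∧
    ∃ L : ℂ → ℂ, Differentiable ℂ L ∧
      (∀ s : ℂ, 3 / 2 < s.re → HasProd (factor (F := F) M N s) (L s)) ∧ L 1 ≠ 0

/-- The number of the primes `ℓ = 1` modulo `3` up to `X` with the property `T`. -/
noncomputable def count (T : ℕ → Prop) (X : ℕ) : ℕ :=
  ((Finset.range (X + 1)).filter fun l => (l.Prime ∧ l % 3 = 1) ∧ T l).card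

theorem result (N : ℕ) (hN : Base N) (k : ℕ) (d : Fin k → ℕ) (hd : ∀ j, d j % 9 = 1)
    (hp : ∀ (j : Fin k) (p : ℕ), p.Prime → p ∣ d j → p % 3 = 1) (hind : Independent d) :
    ∃ m : ℕ, Squarefree m ∧ (∀ p ∈ m.primeFactors, p % 9 = 1 ∧ ¬ p ∣ N) ∧
      ∃ (δ : ℝ) (S : ℕ → Prop), 0 < δ ∧
        Filter.Tendsto (fun X : ℕ => (count S X : ℝ) / (count (fun _ => True) X : ℝ)) Filter.atTop
          (nhds δ) ∧
        ∀ l : ℕ, l.Prime → l % 3 = 1 → S l → ¬ l ∣ N * m ∧
          ∀ (F : Type) [Field F] [NumberField F] (θ : Fin k → F), (∀ j, θ j ^ 3 = (d j : F)) →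
            IntermediateField.adjoin ℚ ({x : F | x ^ 3 = 1} ∪ Set.range θ) = ⊤ →
              3 ^ k ∣ Module.finrank ℚ F ∧
                RankZero (6 * (N * m * l) * ∏ j, d j) (N * m * l) F := by
  have hB : Q283.TQ.Bs N := ⟨⟨hN.1, hN.2.1, hN.2.2.1⟩, hN.2.2.2⟩
  have hd0 : ∀ j, d j ≠ 0 := fun j h => by
    have := hd j
    rw [h] at this
    norm_num at this
  obtain ⟨m, h1, h2, δ, h3, S, h4, h5⟩ := Q283.MC.g2 hB d hd0 hd hp
  refine ⟨m, h1, h2, δ, S, h3, h4, fun l hl hl1 hS => ?_⟩
  obtain ⟨h6, h7⟩ := h5 l hl hl1 hS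
  refine ⟨h6, fun F _ _ θ hθ hgen => ⟨Q283.MC.deg_dvd hθ hind, ?_⟩⟩
  obtain ⟨r, hr⟩ := Q283.MC.rd_of hθ hind hgen
  obtain ⟨h8, L, h9, h10, h11⟩ := h7 r F θ hr
  refine ⟨?_, L, h9, fun s hs => (h10 s hs).congr_fun fun v => rfl, h11⟩
  have h12 : curve (N * m * l) =
      Pool.Agent.Y703.CT.EQ (Pool.Agent.Y703.CT.WD ((N * m * l : ℕ) : ℤ)) := by
    ext <;> simp [curve, Pool.Agent.Y703.CT.WD]
  rw [h12]
  exact h8

end Pool.Agent.Results.MP_f50388_nt.PureMulticubicFields
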